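import Mathlib

/-!
# MP_80c395_co: rooted trees by parent functions, greedy embedding of the core
-/

set_option autoImplicit false

open Finset

namespace Pool.Agent.Lib.MP_80c395_co

/-- a rooted tree on `X`: root `c`, parent function `p`, rank `r` which drops towards the root -/
structure RT (X : Type) where
  c : X
  p : X → X
  r : X → ℕ
  lt : ∀ x, x ≠ c → r (p x) < r x

namespace RT

variable {X : Type} [Fintype X] [DecidableEq X] (R : RT X)

/-- vertices which are not the root and not adjacent to the root -/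
def tauS : Finset X := univ.filter fun x => x ≠ R.c ∧ R.p x ≠ R.c

/-- children of the root which have a child -/
def rhoS : Finset X := univ.filter fun x => x ≠ R.c ∧ R.p x = R.c ∧ ∃ y, y ≠ R.c ∧ R.p y = x

/-- children of the root without a child -/
def lfS : Finset X := univ.filter fun x => x ≠ R.c ∧ R.p x = R.c ∧ ¬ ∃ y, y ≠ R.c ∧ R.p y = x

/-- the core without the root -/
def coreS : Finset X := R.rhoS ∪ R.tauS

variable {R}

theorem mem_tauS {x : X} : x ∈ R.tauS ↔ x ≠ R.c ∧ R.p x ≠ R.c := by simp [tauS]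

theorem mem_rhoS {x : X} :
    x ∈ R.rhoS ↔ x ≠ R.c ∧ R.p x = R.c ∧ ∃ y, y ≠ R.c ∧ R.p y = x := by simp [rhoS]

theorem mem_lfS {x : X} :
    x ∈ R.lfS ↔ x ≠ R.c ∧ R.p x = R.c ∧ ¬ ∃ y, y ≠ R.c ∧ R.p y = x := by
  unfold lfS
  rw [mem_filter]
  exact ⟨fun h => h.2, fun h => ⟨mem_univ _, h⟩⟩

theorem mem_coreS {x : X} : x ∈ R.coreS ↔ x ∈ R.rhoS ∨ x ∈ R.tauS := by
  unfold coreS; rw [mem_union]

theorem p_ne {x : X} (hx : x ≠ R.c) : R.p x ≠ x := by
  intro h
  have := R.lt x hx
  rw [h] at this
  exact lt_irrefl _ this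

theorem ne_of_core {x : X} (hx : x ∈ R.coreS) : x ≠ R.c := by
  rcases mem_coreS.mp hx with h | h
  · exact (mem_rhoS.mp h).1
  · exact (mem_tauS.mp h).1

theorem ne_of_lf {x : X} (hx : x ∈ R.lfS) : x ≠ R.c := (mem_lfS.mp hx).1

theorem p_of_lf {x : X} (hx : x ∈ R.lfS) : R.p x = R.c := (mem_lfS.mp hx).2.1

theorem core_or_lf {x : X} (hx : x ≠ R.c) : x ∈ R.coreS ∨ x ∈ R.lfS := by
  by_cases h1 : R.p x = R.c
  · by_cases h2 : ∃ y, y ≠ R.c ∧ R.p y = x
    · left; rw [mem_coreS, mem_rhoS]; left; exact ⟨hx, h1, h2⟩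
    · right; rw [mem_lfS]; exact ⟨hx, h1, h2⟩
  · left; rw [mem_coreS, mem_tauS]; right; exact ⟨hx, h1⟩

theorem not_core_of_lf {x : X} (hx : x ∈ R.lfS) : x ∉ R.coreS := by
  rw [mem_lfS] at hx
  intro h
  rcases mem_coreS.mp h with h | h
  · exact hx.2.2 (mem_rhoS.mp h).2.2
  · exact (mem_tauS.mp h).2 hx.2.1

theorem p_core {x : X} (hx : x ∈ R.coreS) : R.p x = R.c ∨ R.p x ∈ R.coreS := by
  by_cases h : R.p x = R.c
  · exact Or.inl h
  right
  have hx0 := ne_of_core hx
  rcases core_or_lf h with h1 | h1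
  · exact h1
  · exact absurd ⟨x, hx0, rfl⟩ (mem_lfS.mp h1).2.2

theorem disj_rho_tau : Disjoint R.rhoS R.tauS := by
  rw [Finset.disjoint_left]
  intro x h1 h2
  exact (mem_tauS.mp h2).2 (mem_rhoS.mp h1).2.1

theorem card_core : R.coreS.card = R.rhoS.card + R.tauS.card := by
  unfold coreS
  exact Finset.card_union_of_disjoint disj_rho_tau

theorem disj_core_lf : Disjoint R.coreS R.lfS := by
  rw [Finset.disjoint_left]
  intro x h1 h2
  exact not_core_of_lf h2 h1

theorem core_union_lf : R.coreS ∪ R.lfS = univ.erase R.c := by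
  ext x
  rw [mem_union, mem_erase]
  constructor
  · rintro (h | h)
    · exact ⟨ne_of_core h, mem_univ _⟩
    · exact ⟨ne_of_lf h, mem_univ _⟩
  · intro h
    exact core_or_lf h.1

theorem card_all : R.coreS.card + R.lfS.card + 1 = Fintype.card X := by
  rw [← Finset.card_union_of_disjoint disj_core_lf, core_union_lf,
    Finset.card_erase_add_one (mem_univ _), Finset.card_univ]

theorem rho_le_tau : R.rhoS.card ≤ R.tauS.card := by
  classical
  have hch : ∀ x : X, ∃ y, x ∈ R.rhoS → y ≠ R.c ∧ R.p y = x := by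
    intro x
    by_cases hx : x ∈ R.rhoS
    · obtain ⟨y, hy⟩ := (mem_rhoS.mp hx).2.2
      exact ⟨y, fun _ => hy⟩
    · exact ⟨x, fun h => absurd h hx⟩
  choose g hg using hch
  apply Finset.card_le_card_of_injOn g
  · intro x hx
    have h := hg x hx
    rw [Finset.mem_coe, mem_tauS]
    exact ⟨h.1, by rw [h.2]; exact (mem_rhoS.mp hx).1⟩
  · intro x hx y hy hxy
    have h1 := (hg x hx).2
    have h2 := (hg y hy).2
    rw [← h1, ← h2, hxy]

/-- children of a non-root vertex -/
theorem card_children {y : X} (hy : y ≠ R.c) :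
    (R.coreS.filter fun x => R.p x = y).card ≤ R.tauS.card := by
  apply Finset.card_le_card
  intro x hx
  rw [mem_filter] at hx
  rw [mem_tauS]
  exact ⟨ne_of_core hx.1, by rw [hx.2]; exact hy⟩

/-- greedy embedding of the core -/
theorem embed_core {V : Type} [DecidableEq V] (R : RT X) (u0 : V) (Y : Finset V)
    (good : V → V → Prop) [DecidableRel good]
    (hdeg : ∀ x, x = u0 ∨ x ∈ Y → R.coreS.card ≤ (Y.filter fun y => good x y).card) :
    ∃ φ : X → V, φ R.c = u0 ∧ (∀ x ∈ R.coreS, φ x ∈ Y) ∧ Set.InjOn φ R.coreS ∧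
      ∀ x ∈ R.coreS, good (φ (R.p x)) (φ x) := by
  classical
  suffices H : ∀ (k : ℕ) (S : Finset X), S.card = k → S ⊆ R.coreS →
      (∀ x ∈ S, R.p x = R.c ∨ R.p x ∈ S) →
      ∃ φ : X → V, φ R.c = u0 ∧ (∀ x ∈ S, φ x ∈ Y) ∧ Set.InjOn φ S ∧
        ∀ x ∈ S, good (φ (R.p x)) (φ x) from
    H _ R.coreS rfl subset_rfl fun x hx => p_core hx
  intro k
  induction k with
  | zero =>
    intro S hS _ _
    rw [Finset.card_eq_zero] at hS
    subst hS
    exact ⟨fun _ => u0, rfl, by simp, by simp, by simp⟩
  | succ k ih =>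
    intro S hS hsub hcl
    have hne : S.Nonempty := Finset.card_pos.mp (by omega)
    obtain ⟨x, hx, hmax⟩ := Finset.exists_max_image S R.r hne
    have hxc : x ≠ R.c := ne_of_core (hsub hx)
    have hcl' : ∀ y ∈ S.erase x, R.p y = R.c ∨ R.p y ∈ S.erase x := by
      intro y hy
      rw [mem_erase] at hy
      rcases hcl y hy.2 with h | h
      · exact Or.inl h
      · right
        rw [mem_erase]
        refine ⟨?_, h⟩
        intro hyx
        have h1 := R.lt y (ne_of_core (hsub hy.2))
        rw [hyx] at h1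
        exact absurd (hmax y hy.2) (by omega)
    obtain ⟨φ, hφc, hφY, hφi, hφg⟩ := ih (S.erase x)
      (by rw [Finset.card_erase_of_mem hx, hS]; rfl)
      ((Finset.erase_subset _ _).trans hsub) hcl'
    -- position of the parent
    have hpx : φ (R.p x) = u0 ∨ φ (R.p x) ∈ Y := by
      rcases hcl x hx with h | h
      · left; rw [h, hφc]
      · right
        apply hφY
        rw [mem_erase]
        exact ⟨p_ne hxc, h⟩
    have hcard := hdeg _ hpx
    have hlt : ((S.erase x).image φ).card < (Y.filter fun y => good (φ (R.p x)) y).card := by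
      have h1 : ((S.erase x).image φ).card ≤ (S.erase x).card := Finset.card_image_le
      have h2 : (S.erase x).card = k := by rw [Finset.card_erase_of_mem hx, hS]; rfl
      have h3 : S.card ≤ R.coreS.card := Finset.card_le_card hsub
      omega
    obtain ⟨y, hy, hy'⟩ := Finset.exists_mem_notMem_of_card_lt_card hlt
    rw [mem_filter] at hy
    refine ⟨Function.update φ x y, ?_, ?_, ?_, ?_⟩
    · rw [Function.update_of_ne hxc.symm, hφc]
    · intro z hz
      by_cases hzx : z = x
      · subst hzx; rw [Function.update_self]; exact hy.1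
      · rw [Function.update_of_ne hzx]
        exact hφY z (mem_erase.mpr ⟨hzx, hz⟩)
    · intro a ha b hb hab
      by_cases h1 : a = x
      · by_cases h2 : b = x
        · rw [h1, h2]
        · exfalso
          subst h1
          rw [Function.update_self, Function.update_of_ne h2] at hab
          exact hy' (mem_image.mpr ⟨b, mem_erase.mpr ⟨h2, hb⟩, hab.symm⟩)
      · by_cases h2 : b = x
        · exfalso
          subst h2
          rw [Function.update_self, Function.update_of_ne h1] at hab
          exact hy' (mem_image.mpr ⟨a, mem_erase.mpr ⟨h1, ha⟩, hab⟩)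
        · rw [Function.update_of_ne h1, Function.update_of_ne h2] at hab
          exact hφi (mem_coe.mpr (mem_erase.mpr ⟨h1, ha⟩)) (mem_coe.mpr (mem_erase.mpr ⟨h2, hb⟩)) hab
    · intro z hz
      by_cases hzx : z = x
      · subst hzx
        rw [Function.update_self, Function.update_of_ne (p_ne hxc)]
        exact hy.2
      · have hz' : z ∈ S.erase x := mem_erase.mpr ⟨hzx, hz⟩
        have hpz : R.p z ≠ x := by
          rcases hcl' z hz' with h | h
          · rw [h]; exact hxc.symm
          · exact (mem_erase.mp h).1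
        rw [Function.update_of_ne hzx, Function.update_of_ne hpz]
        exact hφg z hz'

end RT

/-! ### From trees to parent functions -/

theorem exists_RT {X : Type} [Fintype X] [DecidableEq X] (T : SimpleGraph X) (hT : T.IsTree)
    (c : X) :
    ∃ R : RT X, R.c = c ∧ (∀ x, x ≠ c → T.Adj x (R.p x)) ∧
      (∀ a b, T.Adj a b → (a ≠ c ∧ R.p a = b) ∨ (b ≠ c ∧ R.p b = a)) ∧
      T.edgeSet.ncard + 1 = Fintype.card X := by
  classical
  have hpar : ∀ x : X, ∃ y, x ≠ c → T.Adj x y ∧ T.dist y c < T.dist x c := by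
    intro x
    by_cases hx : x = c
    · exact ⟨x, fun h => absurd hx h⟩
    obtain ⟨w, hw⟩ := hT.connected.exists_walk_length_eq_dist x c
    cases w with
    | nil => exact absurd rfl hx
    | cons h w' =>
      refine ⟨_, fun _ => ⟨h, ?_⟩⟩
      have h1 := SimpleGraph.dist_le w'
      rw [SimpleGraph.Walk.length_cons] at hw
      omega
  choose p hp using hpar
  let R : RT X := ⟨c, p, fun x => T.dist x c, fun x hx => (hp x hx).2⟩
  have hcard := hT.card_edgeFinset
  have hinj : Set.InjOn (fun x => s(x, p x)) (univ.erase c : Finset X) := by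
    intro a ha b hb hab
    rw [mem_coe, mem_erase] at ha hb
    simp only [Sym2.eq_iff] at hab
    rcases hab with h | h
    · exact h.1
    · exfalso
      have h1 := (hp a ha.1).2
      have h2 := (hp b hb.1).2
      rw [h.2] at h1
      rw [← h.1] at h2
      omega
  have himg : (univ.erase c).image (fun x => s(x, p x)) = T.edgeFinset := by
    apply Finset.eq_of_subset_of_card_le
    · intro e he
      rw [mem_image] at he
      obtain ⟨x, hx, rfl⟩ := he
      rw [mem_erase] at hx
      rw [SimpleGraph.mem_edgeFinset, SimpleGraph.mem_edgeSet]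
      exact (hp x hx.1).1
    · rw [Finset.card_image_of_injOn hinj, Finset.card_erase_of_mem (mem_univ _), Finset.card_univ]
      omega
  refine ⟨R, rfl, fun x hx => (hp x hx).1, ?_, ?_⟩
  · intro a b hab
    have he : s(a, b) ∈ (univ.erase c).image (fun x => s(x, p x)) := by
      rw [himg, SimpleGraph.mem_edgeFinset, SimpleGraph.mem_edgeSet]
      exact hab
    rw [mem_image] at he
    obtain ⟨x, hx, hxe⟩ := he
    rw [mem_erase] at hx
    rw [Sym2.eq_iff] at hxe
    rcases hxe with ⟨h1, h2⟩ | ⟨h1, h2⟩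
    · left; rw [← h1]; exact ⟨hx.1, h2⟩
    · right; rw [← h1]; exact ⟨hx.1, h2⟩
  · rw [← hcard, ← SimpleGraph.coe_edgeFinset, Set.ncard_coe_finset]

/-- number of edges not at the root -/
theorem RT.card_tau_of_tree {X : Type} [Fintype X] [DecidableEq X] {T : SimpleGraph X} {c : X}
    {R : RT X} (hc : R.c = c) (h1 : ∀ x, x ≠ c → T.Adj x (R.p x))
    (h2 : ∀ a b, T.Adj a b → (a ≠ c ∧ R.p a = b) ∨ (b ≠ c ∧ R.p b = a))
    (h3 : T.edgeSet.ncard + 1 = Fintype.card X) :
    R.tauS.card = T.edgeSet.ncard - (T.neighborSet c).ncard := by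
  classical
  subst hc
  have hN : T.neighborSet R.c = ((univ.erase R.c).filter fun x => R.p x = R.c : Finset X) := by
    ext x
    rw [SimpleGraph.mem_neighborSet, mem_coe, mem_filter, mem_erase]
    constructor
    · intro h
      rcases h2 _ _ h with h | h
      · exact absurd rfl h.1
      · exact ⟨⟨h.1, mem_univ _⟩, h.2⟩
    · rintro ⟨⟨hx, -⟩, hp⟩
      have := h1 x hx
      rw [hp] at this
      exact this.symm
  have hT : R.tauS = (univ.erase R.c).filter fun x => ¬ R.p x = R.c := by
    ext x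
    rw [RT.mem_tauS, mem_filter, mem_erase]
    exact ⟨fun h => ⟨⟨h.1, mem_univ _⟩, h.2⟩, fun h => ⟨h.1.1, h.2⟩⟩
  have hsum := Finset.card_filter_add_card_filter_not (s := univ.erase R.c)
    (fun x => R.p x = R.c)
  rw [Finset.card_erase_of_mem (mem_univ _), Finset.card_univ] at hsum
  rw [hN, Set.ncard_coe_finset, hT]
  omega

end Pool.Agent.Lib.MP_80c395_co
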