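import Pool.Agent.Lib.MP_80c395_co.Loads
import Pool.Agent.Lib.MP_80c395_co.Rooted

/-!
# MP_80c395_co: the cores of all trees are embedded one after the other
-/

set_option autoImplicit false

open Finset

namespace Pool.Agent.Lib.MP_80c395_co

section One

variable {X V : Type} [Fintype X] [DecidableEq X] [DecidableEq V]

/-- number of core edges of one tree at `w` -/
def cnt (R : RT X) (ψ : X → V) (w : V) : ℕ :=
  (R.coreS.filter fun x => w ∈ s(ψ (R.p x), ψ x)).card

variable {R : RT X} {ψ : X → V} {u : V}

theorem cnt_root (hc : ψ R.c = u) (ha : ∀ x ∈ R.coreS, ψ x ≠ u) : cnt R ψ u ≤ R.rhoS.card := by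
  unfold cnt
  apply Finset.card_le_card
  intro x hx
  rw [mem_filter, Sym2.mem_iff] at hx
  have hpc : R.p x = R.c := by
    rcases hx.2 with h | h
    · rcases RT.p_core hx.1 with h1 | h1
      · exact h1
      · exact absurd h.symm (ha _ h1)
    · exact absurd h.symm (ha _ hx.1)
  rcases RT.mem_coreS.mp hx.1 with h | h
  · exact h
  · exact absurd hpc (RT.mem_tauS.mp h).2

theorem cnt_zero (hc : ψ R.c = u) {w : V} (hwu : w ≠ u) (hw : ∀ x ∈ R.coreS, ψ x ≠ w) :
    cnt R ψ w = 0 := by
  unfold cnt
  rw [Finset.card_eq_zero, Finset.filter_eq_empty_iff]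
  intro x hx hcon
  rw [Sym2.mem_iff] at hcon
  rcases hcon with h | h
  · rcases RT.p_core hx with h1 | h1
    · rw [h1, hc] at h; exact hwu h
    · exact hw _ h1 h.symm
  · exact hw _ hx h.symm

theorem cnt_le (hc : ψ R.c = u) (hi : Set.InjOn ψ R.coreS) {w : V} (hwu : w ≠ u) :
    cnt R ψ w ≤ R.tauS.card + 1 := by
  by_cases hw : ∃ y ∈ R.coreS, ψ y = w
  · obtain ⟨y, hy, rfl⟩ := hw
    unfold cnt
    have hsub : (R.coreS.filter fun x => ψ y ∈ s(ψ (R.p x), ψ x)) ⊆
        insert y (R.coreS.filter fun x => R.p x = y) := by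
      intro x hx
      rw [mem_filter, Sym2.mem_iff] at hx
      rw [mem_insert, mem_filter]
      rcases hx.2 with h | h
      · right
        refine ⟨hx.1, ?_⟩
        rcases RT.p_core hx.1 with h1 | h1
        · rw [h1, hc] at h; exact absurd h hwu
        · exact hi (mem_coe.mpr h1) (mem_coe.mpr hy) h.symm
      · left
        exact hi (mem_coe.mpr hx.1) (mem_coe.mpr hy) h.symm
    calc _ ≤ _ := Finset.card_le_card hsub
      _ ≤ (R.coreS.filter fun x => R.p x = y).card + 1 := Finset.card_insert_le _ _
      _ ≤ _ := Nat.add_le_add_right (RT.card_children (RT.ne_of_core hy)) 1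
  · push Not at hw
    rw [cnt_zero hc hwu hw]
    exact Nat.zero_le _

theorem cnt_pos {y : X} (hy : y ∈ R.coreS) : 1 ≤ cnt R ψ (ψ y) := by
  unfold cnt
  rw [Nat.one_le_iff_ne_zero, ← Nat.pos_iff_ne_zero, Finset.card_pos]
  exact ⟨y, mem_filter.mpr ⟨hy, Sym2.mem_mk_right _ _⟩⟩

theorem sum_cnt [Fintype V] (hc : ψ R.c = u) :
    ∑ w ∈ univ.erase u, cnt R ψ w ≤ 3 * R.tauS.card := by
  have h1 : ∑ w ∈ univ.erase u, cnt R ψ w =
      ∑ x ∈ R.coreS, ((univ.erase u).filter fun w => w ∈ s(ψ (R.p x), ψ x)).card := by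
    unfold cnt
    simp_rw [Finset.card_filter]
    exact Finset.sum_comm
  rw [h1]
  have h2 : ∀ x ∈ R.rhoS, ((univ.erase u).filter fun w => w ∈ s(ψ (R.p x), ψ x)).card ≤ 1 := by
    intro x hx
    rw [(RT.mem_rhoS.mp hx).2.1, hc]
    calc _ ≤ ({ψ x} : Finset V).card := by
          apply Finset.card_le_card
          intro w hw
          rw [mem_filter, mem_erase, Sym2.mem_iff] at hw
          rw [mem_singleton]
          rcases hw.2 with h | h
          · exact absurd h hw.1.1
          · exact h
      _ = 1 := Finset.card_singleton _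
  have h3 : ∀ x ∈ R.tauS, ((univ.erase u).filter fun w => w ∈ s(ψ (R.p x), ψ x)).card ≤ 2 := by
    intro x _
    calc _ ≤ ({ψ (R.p x), ψ x} : Finset V).card := by
          apply Finset.card_le_card
          intro w hw
          rw [mem_filter, mem_erase, Sym2.mem_iff] at hw
          rw [mem_insert, mem_singleton]
          exact hw.2
      _ ≤ 2 := Finset.card_le_two
  have h4 : ∑ x ∈ R.coreS, ((univ.erase u).filter fun w => w ∈ s(ψ (R.p x), ψ x)).card =
      ∑ x ∈ R.rhoS, ((univ.erase u).filter fun w => w ∈ s(ψ (R.p x), ψ x)).card +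
      ∑ x ∈ R.tauS, ((univ.erase u).filter fun w => w ∈ s(ψ (R.p x), ψ x)).card := by
    unfold RT.coreS
    rw [Finset.sum_union RT.disj_rho_tau]
  rw [h4]
  have h5 := Finset.sum_le_card_nsmul _ _ 1 h2
  have h6 := Finset.sum_le_card_nsmul _ _ 2 h3
  have h7 := RT.rho_le_tau (R := R)
  simp only [smul_eq_mul] at h5 h6
  omega

end One

section Family

variable {n : ℕ} {ι : Type} [DecidableEq ι] {X : ι → Type} [∀ i, Fintype (X i)]
  [∀ i, DecidableEq (X i)]

/-- number of edges of the `i`-th tree -/
def wt (R : ∀ i, RT (X i)) (i : ι) : ℕ := (R i).coreS.card + (R i).lfS.card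

/-- the core edges of the trees in `P` -/
def SE (R : ∀ i, RT (X i)) (φ : ∀ i, X i → Fin (2 * n + 1)) (P : Finset ι) :
    Finset (Sym2 (Fin (2 * n + 1))) :=
  (P.sigma fun i => (R i).coreS).image fun a => s(φ a.1 ((R a.1).p a.2), φ a.1 a.2)

/-- number of core edges at `w` of trees in `P` whose root is not at `w` -/
def nr (R : ∀ i, RT (X i)) (σ : ι → Fin (2 * n + 1)) (φ : ∀ i, X i → Fin (2 * n + 1))
    (P : Finset ι) (w : Fin (2 * n + 1)) : ℕ :=
  ∑ i ∈ P, if σ i = w then 0 else cnt (R i) (φ i) w

/-- the state of the greedy embedding -/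
structure St (R : ∀ i, RT (X i)) (σ : ι → Fin (2 * n + 1)) (D : Finset (Fin (2 * n + 1)))
    (φ : ∀ i, X i → Fin (2 * n + 1)) (P : Finset ι) : Prop where
  root : ∀ i ∈ P, φ i (R i).c = σ i
  inj : ∀ i ∈ P, Set.InjOn (φ i) (R i).coreS
  avoid : ∀ i ∈ P, ∀ x ∈ (R i).coreS, φ i x ≠ σ i
  edge : ∀ i ∈ P, ∀ j ∈ P, i ≠ j → ∀ x ∈ (R i).coreS, ∀ y ∈ (R j).coreS,
    s(φ i ((R i).p x), φ i x) ≠ s(φ j ((R j).p y), φ j y)
  notD : ∀ i ∈ P, ∀ x ∈ (R i).coreS, φ i x ∉ D
  small : ∀ w, 20 * nr R σ φ P w ≤ 3 * n
  nc : ∀ i ∈ P, ∀ j ∈ P, ∀ x ∈ (R i).coreS, ∀ y ∈ (R j).coreS, φ i x = σ j → φ j y ≠ σ i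

variable {R : ∀ i, RT (X i)} {σ : ι → Fin (2 * n + 1)} {D : Finset (Fin (2 * n + 1))}
  {φ : ∀ i, X i → Fin (2 * n + 1)} {P : Finset ι}

/-- edges of `SE` at `x` -/
theorem card_SE_at (x : Fin (2 * n + 1)) (Y : Finset (Fin (2 * n + 1))) :
    (Y.filter fun y => s(x, y) ∈ SE R φ P).card ≤ ∑ i ∈ P, cnt (R i) (φ i) x := by
  have h1 : (Y.filter fun y => s(x, y) ∈ SE R φ P).card =
      ((Y.filter fun y => s(x, y) ∈ SE R φ P).image fun y => s(x, y)).card := by
    rw [Finset.card_image_of_injective]
    intro a b hab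
    exact Sym2.congr_right.mp hab
  rw [h1]
  have h2 : ((Y.filter fun y => s(x, y) ∈ SE R φ P).image fun y => s(x, y)) ⊆
      (P.sigma fun i => (R i).coreS.filter fun z => x ∈ s(φ i ((R i).p z), φ i z)).image
        fun a => s(φ a.1 ((R a.1).p a.2), φ a.1 a.2) := by
    intro e he
    rw [mem_image] at he
    obtain ⟨y, hy, rfl⟩ := he
    rw [mem_filter] at hy
    have h3 := hy.2
    unfold SE at h3
    rw [mem_image] at h3
    obtain ⟨a, ha, hae⟩ := h3
    rw [mem_image]
    refine ⟨a, ?_, hae⟩
    rw [mem_sigma] at ha ⊢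
    refine ⟨ha.1, mem_filter.mpr ⟨ha.2, ?_⟩⟩
    rw [hae]
    exact Sym2.mem_mk_left _ _
  calc _ ≤ _ := Finset.card_le_card h2
    _ ≤ _ := Finset.card_image_le
    _ = _ := by rw [Finset.card_sigma]; rfl

theorem St.sum_cnt_le (h : St R σ D φ P) (x : Fin (2 * n + 1)) :
    ∑ i ∈ P, cnt (R i) (φ i) x ≤
      ∑ i ∈ P.filter (fun i => σ i = x), (R i).rhoS.card + nr R σ φ P x := by
  unfold nr
  rw [Finset.sum_filter, ← Finset.sum_add_distrib]
  apply Finset.sum_le_sum
  intro i hi
  by_cases hx : σ i = x
  · rw [if_pos hx, if_pos hx, add_zero]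
    exact cnt_root ((h.root i hi).trans hx) (fun y hy => by rw [← hx]; exact h.avoid i hi y hy)
  · rw [if_neg hx, if_neg hx, zero_add]

theorem St.sum_nr (h : St R σ D φ P) :
    ∑ w, nr R σ φ P w ≤ 3 * ∑ i ∈ P, (R i).tauS.card := by
  unfold nr
  rw [Finset.sum_comm, Finset.mul_sum]
  apply Finset.sum_le_sum
  intro i hi
  calc ∑ w, (if σ i = w then 0 else cnt (R i) (φ i) w)
      = ∑ w ∈ univ.erase (σ i), cnt (R i) (φ i) w := by
        rw [← Finset.add_sum_erase univ _ (mem_univ (σ i)), if_pos rfl, zero_add]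
        apply Finset.sum_congr rfl
        intro w hw
        rw [if_neg (fun h => (mem_erase.mp hw).1 h.symm)]
    _ ≤ _ := sum_cnt (h.root i hi)

/-- trees of `P` that use `u` as a non-root -/
theorem St.card_users (h : St R σ D φ P) (u : Fin (2 * n + 1)) (Q : Finset ι) (hQ : Q ⊆ P)
    (hu : ∀ j ∈ Q, ∃ y ∈ (R j).coreS, φ j y = u) : Q.card ≤ nr R σ φ P u := by
  unfold nr
  rw [Finset.card_eq_sum_ones]
  calc ∑ _j ∈ Q, 1 ≤ ∑ j ∈ Q, (if σ j = u then 0 else cnt (R j) (φ j) u) := by
        apply Finset.sum_le_sum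
        intro j hj
        obtain ⟨y, hy, hyu⟩ := hu j hj
        rw [if_neg (fun h1 => h.avoid j (hQ hj) y hy (hyu.trans h1.symm))]
        rw [← hyu]
        exact cnt_pos hy
    _ ≤ _ := Finset.sum_le_sum_of_subset hQ

variable [Fintype ι]

/-- the greedy embedding of all cores -/
theorem exists_St (hn : 0 < n) (hwt : ∀ i, wt R i ≤ n) (hnear : ∀ i, 50 * (R i).tauS.card ≤ wt R i)
    (hsum : ∑ i, wt R i = n * (2 * n + 1))
    (hload : ∀ u v, load (wt R) σ u ≤ 2 * load (wt R) σ v) :
    ∃ φ : ∀ i, X i → Fin (2 * n + 1), St R σ (ovr n (load (wt R) σ)) φ univ := by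
  classical
  set M := load (wt R) σ with hM
  have hMsum : ∑ v, M v = n * (2 * n + 1) := by rw [hM, sum_load, hsum]
  have hD := card_ovr hn hMsum hload
  suffices H : ∀ P : Finset ι, ∃ φ : ∀ i, X i → Fin (2 * n + 1), St R σ (ovr n M) φ P from H univ
  intro P
  induction P using Finset.induction_on with
  | empty =>
    refine ⟨fun i _ => σ i, ⟨by simp, by simp, by simp, by simp, by simp, ?_, by simp⟩⟩
    intro w
    unfold nr
    simp
  | insert i0 P hi0 ih =>
    obtain ⟨φ, h⟩ := ih
    -- the conflict set and the allowed set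
    set Q := P.filter fun j => ∃ y ∈ (R j).coreS, φ j y = σ i0 with hQ
    set Hv := (univ : Finset (Fin (2 * n + 1))).filter fun w => 11 * n < 100 * nr R σ φ P w with hH
    set Bad := ovr n M ∪ Hv ∪ Q.image σ ∪ {σ i0} with hBad
    have hgood : DecidableRel fun x y : Fin (2 * n + 1) => s(x, y) ∉ SE R φ P :=
      fun x y => inferInstance
    have hcount : ∀ x : Fin (2 * n + 1),
        (R i0).coreS.card ≤ (Badᶜ.filter fun y => s(x, y) ∉ SE R φ P).card := by
      intro x
      by_cases h0 : (R i0).coreS.card = 0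
      · rw [h0]; exact Nat.zero_le _
      have ht1 : 1 ≤ (R i0).tauS.card := by
        have h1 := RT.card_core (R := R i0)
        have h2 := RT.rho_le_tau (R := R i0)
        omega
      have hw0 := hwt i0
      have hnr0 := hnear i0
      have hcore : (R i0).coreS.card ≤ 2 * (R i0).tauS.card := by
        have h1 := RT.card_core (R := R i0)
        have h2 := RT.rho_le_tau (R := R i0)
        omega
      -- heavy vertices
      have hHv : 11 * Hv.card ≤ 6 * (2 * n + 1) := by
        have e1 : Hv.card * (11 * n) ≤ 100 * ∑ w, nr R σ φ P w := by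
          rw [Finset.mul_sum]
          calc Hv.card * (11 * n) = ∑ _w ∈ Hv, 11 * n := by rw [Finset.sum_const, smul_eq_mul]
            _ ≤ ∑ w ∈ Hv, 100 * nr R σ φ P w := by
              apply Finset.sum_le_sum
              intro w hw
              rw [hH, mem_filter] at hw
              exact hw.2.le
            _ ≤ _ := Finset.sum_le_sum_of_subset (Finset.subset_univ _)
        have e2 := h.sum_nr
        have e3 : ∑ i ∈ P, (R i).tauS.card ≤ ∑ i, (R i).tauS.card :=
          Finset.sum_le_sum_of_subset (Finset.subset_univ _)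
        have e4 : 50 * ∑ i, (R i).tauS.card ≤ n * (2 * n + 1) := by
          rw [Finset.mul_sum, ← hsum]
          exact Finset.sum_le_sum fun i _ => hnear i
        have e5 : n * (11 * Hv.card) ≤ n * (6 * (2 * n + 1)) := by
          have : n * (11 * Hv.card) = Hv.card * (11 * n) := by ring
          rw [this]
          have : n * (6 * (2 * n + 1)) = 6 * (n * (2 * n + 1)) := by ring
          rw [this]
          omega
        exact Nat.le_of_mul_le_mul_left e5 hn
      have hQc : 20 * (Q.image σ).card ≤ 3 * n := by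
        have e1 : Q.card ≤ nr R σ φ P (σ i0) :=
          h.card_users _ Q (Finset.filter_subset _ _) (fun j hj => (mem_filter.mp hj).2)
        have e2 : (Q.image σ).card ≤ Q.card := Finset.card_image_le
        have e3 := h.small (σ i0)
        omega
      have hBadc : Bad.card ≤ (ovr n M).card + Hv.card + (Q.image σ).card + 1 := by
        rw [hBad]
        have e1 := Finset.card_union_le (ovr n M ∪ Hv ∪ Q.image σ) {σ i0}
        have e2 := Finset.card_union_le (ovr n M ∪ Hv) (Q.image σ)
        have e3 := Finset.card_union_le (ovr n M) Hv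
        rw [Finset.card_singleton] at e1
        omega
      have hY : Badᶜ.card + Bad.card = 2 * n + 1 := by
        rw [Finset.card_compl_add_card, Fintype.card_fin]
      have hsplit : (Badᶜ.filter fun y => s(x, y) ∈ SE R φ P).card +
          (Badᶜ.filter fun y => s(x, y) ∉ SE R φ P).card = Badᶜ.card :=
        Finset.card_filter_add_card_filter_not _
      have hdeg : (Badᶜ.filter fun y => s(x, y) ∈ SE R φ P).card ≤
          ∑ i ∈ P.filter (fun i => σ i = x), (R i).rhoS.card + nr R σ φ P x :=
        (card_SE_at x _).trans (h.sum_cnt_le x)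
      have hrho : 50 * ∑ i ∈ P.filter (fun i => σ i = x), (R i).rhoS.card ≤ 2 * n := by
        calc 50 * ∑ i ∈ P.filter (fun i => σ i = x), (R i).rhoS.card
            ≤ ∑ i ∈ P.filter (fun i => σ i = x), wt R i := by
              rw [Finset.mul_sum]
              apply Finset.sum_le_sum
              intro i _
              have e1 := hnear i
              have e2 := RT.rho_le_tau (R := R i)
              omega
          _ ≤ M x := by
              rw [hM]
              unfold load
              exact Finset.sum_le_sum_of_subset (Finset.filter_subset_filter _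
                (Finset.subset_univ _))
          _ ≤ 2 * n := load_le hMsum hload x
      have hsm := h.small x
      omega
    obtain ⟨ψ, hψc, hψY, hψi, hψg⟩ := RT.embed_core (R i0) (σ i0) Badᶜ
      (fun x y => s(x, y) ∉ SE R φ P) (fun x _ => hcount x)
    have hψD : ∀ x ∈ (R i0).coreS, ψ x ∉ ovr n M := by
      intro x hx hcon
      have := hψY x hx
      rw [mem_compl] at this
      apply this
      rw [hBad]
      simp only [mem_union]
      exact Or.inl (Or.inl (Or.inl hcon))
    have hψH : ∀ x ∈ (R i0).coreS, 100 * nr R σ φ P (ψ x) ≤ 11 * n := by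
      intro x hx
      by_contra hcon
      have := hψY x hx
      rw [mem_compl] at this
      apply this
      rw [hBad]
      simp only [mem_union]
      refine Or.inl (Or.inl (Or.inr ?_))
      rw [hH, mem_filter]
      exact ⟨mem_univ _, by omega⟩
    have hψQ : ∀ x ∈ (R i0).coreS, ∀ j ∈ P, ψ x = σ j → ∀ y ∈ (R j).coreS, φ j y ≠ σ i0 := by
      intro x hx j hj hxj y hy hcon
      have := hψY x hx
      rw [mem_compl] at this
      apply this
      rw [hBad]
      simp only [mem_union]
      refine Or.inl (Or.inr ?_)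
      rw [mem_image]
      refine ⟨j, ?_, hxj.symm⟩
      rw [hQ, mem_filter]
      exact ⟨hj, y, hy, hcon⟩
    have hψσ : ∀ x ∈ (R i0).coreS, ψ x ≠ σ i0 := by
      intro x hx hcon
      have := hψY x hx
      rw [mem_compl] at this
      apply this
      rw [hBad]
      simp only [mem_union, mem_singleton]
      exact Or.inr hcon
    have hup : ∀ j ∈ P, Function.update φ i0 ψ j = φ j := by
      intro j hj
      apply Function.update_of_ne
      rintro rfl
      exact hi0 hj
    have hself : Function.update φ i0 ψ i0 = ψ := Function.update_self _ _ _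
    have hnrP : ∀ w, nr R σ (Function.update φ i0 ψ) P w = nr R σ φ P w := by
      intro w
      unfold nr
      apply Finset.sum_congr rfl
      intro j hj
      rw [hup j hj]
    refine ⟨Function.update φ i0 ψ, ⟨?_, ?_, ?_, ?_, ?_, ?_, ?_⟩⟩
    · intro i hi
      rw [mem_insert] at hi
      rcases hi with rfl | hi
      · rw [hself, hψc]
      · rw [hup i hi]; exact h.root i hi
    · intro i hi
      rw [mem_insert] at hi
      rcases hi with rfl | hi
      · rw [hself]; exact hψi
      · rw [hup i hi]; exact h.inj i hi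
    · intro i hi
      rw [mem_insert] at hi
      rcases hi with rfl | hi
      · rw [hself]; exact hψσ
      · rw [hup i hi]; exact h.avoid i hi
    · -- edges
      have hnew : ∀ j ∈ P, ∀ x ∈ (R i0).coreS, ∀ y ∈ (R j).coreS,
          s(ψ ((R i0).p x), ψ x) ≠ s(φ j ((R j).p y), φ j y) := by
        intro j hj x hx y hy hcon
        apply hψg x hx
        rw [hcon]
        unfold SE
        rw [mem_image]
        exact ⟨⟨j, y⟩, mem_sigma.mpr ⟨hj, hy⟩, rfl⟩
      intro i hi j hj hij x hx y hy
      rw [mem_insert] at hi hj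
      rcases hi with rfl | hi
      · rcases hj with rfl | hj
        · exact absurd rfl hij
        · rw [hself, hup j hj]
          exact hnew j hj x hx y hy
      · rcases hj with rfl | hj
        · rw [hself, hup i hi]
          exact fun hcon => hnew i hi y hy x hx hcon.symm
        · rw [hup i hi, hup j hj]
          exact h.edge i hi j hj hij x hx y hy
    · intro i hi
      rw [mem_insert] at hi
      rcases hi with rfl | hi
      · rw [hself]; exact hψD
      · rw [hup i hi]; exact h.notD i hi
    · -- loads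
      intro w
      have hins : nr R σ (Function.update φ i0 ψ) (insert i0 P) w =
          (if σ i0 = w then 0 else cnt (R i0) ψ w) + nr R σ φ P w := by
        rw [← hnrP w]
        unfold nr
        rw [Finset.sum_insert hi0, hself]
      rw [hins]
      have hsm := h.small w
      by_cases hw : σ i0 = w
      · rw [if_pos hw]; omega
      rw [if_neg hw]
      by_cases hex : ∃ y ∈ (R i0).coreS, ψ y = w
      · obtain ⟨y, hy, hyw⟩ := hex
        have e1 := cnt_le (R := R i0) hψc hψi (w := w) (fun hh => hw hh.symm)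
        have e2 := hψH y hy
        rw [hyw] at e2
        have e3 : 1 ≤ (R i0).tauS.card := by
          have h1 := RT.card_core (R := R i0)
          have h2 := RT.rho_le_tau (R := R i0)
          have h3 : 0 < (R i0).coreS.card := Finset.card_pos.mpr ⟨y, hy⟩
          omega
        have e4 := hnear i0
        have e5 := hwt i0
        omega
      · push Not at hex
        rw [cnt_zero hψc (fun hh => hw hh.symm) hex]
        omega
    · -- no double conflict
      intro i hi j hj x hx y hy hxj
      rw [mem_insert] at hi hj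
      rcases hi with rfl | hi
      · rcases hj with rfl | hj
        · rw [hself] at hxj ⊢
          exact absurd hxj (hψσ x hx)
        · rw [hself] at hxj
          rw [hup j hj]
          exact hψQ x hx j hj hxj y hy
      · rcases hj with rfl | hj
        · rw [hup i hi] at hxj
          rw [hself]
          intro hcon
          exact hψQ y hy i hi hcon x hx hxj
        · rw [hup i hi] at hxj
          rw [hup j hj]
          exact h.nc i hi j hj x hx y hy hxj

end Family

end Pool.Agent.Lib.MP_80c395_co
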