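import Pool.Agent.Lib.MP_80c395_co.Embed

/-!
# MP_80c395_co: Hall's condition for the leaves
-/

set_option autoImplicit false

open Finset

namespace Pool.Agent.Lib.MP_80c395_co

section

variable {n : ℕ} {ι : Type} [DecidableEq ι] [Fintype ι] {X : ι → Type} [∀ i, Fintype (X i)]
  [∀ i, DecidableEq (X i)]

/-- edges acceptable for the leaves of tree `i` -/
def Acc (R : ∀ i, RT (X i)) (σ : ι → Fin (2 * n + 1)) (φ : ∀ i, X i → Fin (2 * n + 1)) (i : ι) :
    Finset (Sym2 (Fin (2 * n + 1))) :=
  (univ.filter fun w => w ≠ σ i ∧ (∀ x ∈ (R i).coreS, φ i x ≠ w) ∧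
    s(σ i, w) ∉ SE R φ univ).image fun w => s(σ i, w)

/-- all edges inside `A` -/
def KE (A : Finset (Fin (2 * n + 1))) : Finset (Sym2 (Fin (2 * n + 1))) :=
  A.offDiag.image Sym2.mk.uncurry

theorem card_KE (A : Finset (Fin (2 * n + 1))) : (KE A).card = A.card.choose 2 := by
  unfold KE
  exact Sym2.card_image_offDiag A

theorem mem_KE {A : Finset (Fin (2 * n + 1))} {a b : Fin (2 * n + 1)} :
    s(a, b) ∈ KE A ↔ a ∈ A ∧ b ∈ A ∧ a ≠ b := by
  unfold KE
  rw [mem_image]
  constructor
  · rintro ⟨⟨c, d⟩, hcd, h⟩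
    rw [mem_offDiag] at hcd
    simp only [Function.uncurry_apply_pair] at h
    rw [Sym2.eq_iff] at h
    rcases h with ⟨h1, h2⟩ | ⟨h1, h2⟩
    · rw [← h1, ← h2]; exact hcd
    · rw [← h1, ← h2]; exact ⟨hcd.2.1, hcd.1, fun h => hcd.2.2 h.symm⟩
  · rintro h
    exact ⟨(a, b), mem_offDiag.mpr h, rfl⟩

variable {R : ∀ i, RT (X i)} {σ : ι → Fin (2 * n + 1)} {D : Finset (Fin (2 * n + 1))}
  {φ : ∀ i, X i → Fin (2 * n + 1)}

theorem St.p_ne (h : St R σ D φ univ) {i : ι} {x : X i} (hx : x ∈ (R i).coreS) :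
    φ i ((R i).p x) ≠ φ i x := by
  rcases RT.p_core hx with h1 | h1
  · rw [h1, h.root i (mem_univ i)]
    exact (h.avoid i (mem_univ i) x hx).symm
  · intro hcon
    exact RT.p_ne (RT.ne_of_core hx) (h.inj i (mem_univ i) (mem_coe.mpr h1) (mem_coe.mpr hx) hcon)

theorem St.injOn_edges (h : St R σ D φ univ) :
    Set.InjOn (fun a : Σ i, X i => s(φ a.1 ((R a.1).p a.2), φ a.1 a.2))
      (univ.sigma fun i => (R i).coreS : Finset (Σ i, X i)) := by
  rintro ⟨i, x⟩ hi ⟨j, y⟩ hj hij
  rw [mem_coe, mem_sigma] at hi hj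
  by_cases hne : i = j
  · subst hne
    simp only at hij hi hj
    rw [Sym2.eq_iff] at hij
    rcases hij with ⟨-, h2⟩ | ⟨h1, h2⟩
    · rw [h.inj i (mem_univ i) (mem_coe.mpr hi.2) (mem_coe.mpr hj.2) h2]
    · exfalso
      have e1 : (R i).p x = y := by
        rcases RT.p_core hi.2 with e | e
        · rw [e, h.root i (mem_univ i)] at h1
          exact absurd h1.symm (h.avoid i (mem_univ i) y hj.2)
        · exact h.inj i (mem_univ i) (mem_coe.mpr e) (mem_coe.mpr hj.2) h1
      have e2 : (R i).p y = x := by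
        rcases RT.p_core hj.2 with e | e
        · rw [e, h.root i (mem_univ i)] at h2
          exact absurd h2 (h.avoid i (mem_univ i) x hi.2)
        · exact h.inj i (mem_univ i) (mem_coe.mpr e) (mem_coe.mpr hi.2) h2.symm
      have f1 := (R i).lt x (RT.ne_of_core hi.2)
      have f2 := (R i).lt y (RT.ne_of_core hj.2)
      rw [e1] at f1
      rw [e2] at f2
      omega
  · exact absurd hij (h.edge i (mem_univ i) j (mem_univ j) hne x hi.2 y hj.2)

theorem St.card_SE (h : St R σ D φ univ) : (SE R φ univ).card = ∑ i, (R i).coreS.card := by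
  unfold SE
  rw [Finset.card_image_of_injOn h.injOn_edges, Finset.card_sigma]

theorem St.SE_sub (h : St R σ D φ univ) : SE R φ univ ⊆ KE univ := by
  intro e he
  unfold SE at he
  rw [mem_image] at he
  obtain ⟨⟨i, x⟩, ha, rfl⟩ := he
  rw [mem_sigma] at ha
  rw [mem_KE]
  exact ⟨mem_univ _, mem_univ _, h.p_ne ha.2⟩

theorem Acc_sub (J : Finset ι) : J.biUnion (Acc R σ φ) ⊆ KE univ \ SE R φ univ := by
  intro e he
  rw [mem_biUnion] at he
  obtain ⟨i, -, hi⟩ := he
  unfold Acc at hi
  rw [mem_image] at hi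
  obtain ⟨w, hw, rfl⟩ := hi
  rw [mem_filter] at hw
  rw [mem_sdiff, mem_KE]
  exact ⟨⟨mem_univ _, mem_univ _, hw.2.1.symm⟩, hw.2.2.2⟩

/-- an edge at the root of `j` which is free but not acceptable ends in a core vertex -/
theorem not_acc {j : ι} {w : Fin (2 * n + 1)} (hw : w ≠ σ j) (hS : s(σ j, w) ∉ SE R φ univ)
    (hA : s(σ j, w) ∉ Acc R σ φ j) : ∃ x ∈ (R j).coreS, φ j x = w := by
  by_contra hcon
  push Not at hcon
  apply hA
  unfold Acc
  rw [mem_image]
  exact ⟨w, mem_filter.mpr ⟨mem_univ _, hw, hcon, hS⟩, rfl⟩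

/-- core edges which meet `B` -/
theorem St.card_SE_meet (h : St R σ D φ univ) (B : Finset (Fin (2 * n + 1))) :
    (SE R φ univ \ KE Bᶜ).card ≤ ∑ v ∈ B, ∑ i, cnt (R i) (φ i) v := by
  have hsub : SE R φ univ \ KE Bᶜ ⊆
      B.biUnion fun v => (univ.sigma fun i => (R i).coreS.filter fun x =>
        v ∈ s(φ i ((R i).p x), φ i x)).image fun a => s(φ a.1 ((R a.1).p a.2), φ a.1 a.2) := by
    intro e he
    rw [mem_sdiff] at he
    obtain ⟨h1, h2⟩ := he
    unfold SE at h1
    rw [mem_image] at h1
    obtain ⟨⟨i, x⟩, ha, rfl⟩ := h1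
    rw [mem_sigma] at ha
    simp only at h2 ha ⊢
    rw [mem_KE, mem_compl, mem_compl] at h2
    have hne := h.p_ne ha.2
    rw [mem_biUnion]
    by_cases hB : φ i ((R i).p x) ∈ B
    · refine ⟨_, hB, ?_⟩
      rw [mem_image]
      exact ⟨⟨i, x⟩, mem_sigma.mpr ⟨mem_univ _, mem_filter.mpr ⟨ha.2, Sym2.mem_mk_left _ _⟩⟩, rfl⟩
    · have hB2 : φ i x ∈ B := by
        by_contra hcon
        exact h2 ⟨hB, hcon, hne⟩
      refine ⟨_, hB2, ?_⟩
      rw [mem_image]
      exact ⟨⟨i, x⟩, mem_sigma.mpr ⟨mem_univ _, mem_filter.mpr ⟨ha.2, Sym2.mem_mk_right _ _⟩⟩, rfl⟩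
  calc _ ≤ _ := Finset.card_le_card hsub
    _ ≤ _ := Finset.card_biUnion_le
    _ ≤ _ := by
      apply Finset.sum_le_sum
      intro v _
      refine Finset.card_image_le.trans ?_
      rw [Finset.card_sigma]
      exact le_of_eq rfl

/-- The inequality in Hall's theorem. -/
theorem St.hall (hn : 0 < n) (hnear : ∀ i, 50 * (R i).tauS.card ≤ wt R i)
    (hsum : ∑ i, wt R i = n * (2 * n + 1))
    (hload : ∀ u v, load (wt R) σ u ≤ 2 * load (wt R) σ v)
    (h : St R σ (ovr n (load (wt R) σ)) φ univ) (J : Finset ι) :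
    ∑ i ∈ J, (R i).lfS.card ≤ (J.biUnion (Acc R σ φ)).card := by
  classical
  set M := load (wt R) σ with hM
  have hMsum : ∑ v, M v = n * (2 * n + 1) := by rw [hM, sum_load, hsum]
  set S := SE R φ univ with hS
  set U := (KE (univ : Finset (Fin (2 * n + 1))) \ S) \ J.biUnion (Acc R σ φ) with hU
  -- counting
  have hK : (KE (univ : Finset (Fin (2 * n + 1)))).card = n * (2 * n + 1) := by
    rw [card_KE, Finset.card_univ, Fintype.card_fin, Nat.choose_two_right]
    have : (2 * n + 1) * (2 * n + 1 - 1) = n * (2 * n + 1) * 2 := by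
      rw [Nat.add_sub_cancel]; ring
    rw [this, Nat.mul_div_cancel _ (by norm_num)]
  have hc1 : (KE (univ : Finset (Fin (2 * n + 1))) \ S).card + S.card = n * (2 * n + 1) := by
    rw [Finset.card_sdiff_add_card_eq_card h.SE_sub, hK]
  have hc2 : U.card + (J.biUnion (Acc R σ φ)).card =
      (KE (univ : Finset (Fin (2 * n + 1))) \ S).card :=
    Finset.card_sdiff_add_card_eq_card (Acc_sub J)
  have hSc : S.card = ∑ i, (R i).coreS.card := h.card_SE
  have htot : ∑ i, (R i).lfS.card + S.card = n * (2 * n + 1) := by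
    rw [hSc, ← hsum, ← Finset.sum_add_distrib]
    exact Finset.sum_congr rfl fun i _ => by unfold wt; omega
  have hJ : ∑ i ∈ J, (R i).lfS.card + ∑ i ∈ Jᶜ, (R i).lfS.card = ∑ i, (R i).lfS.card :=
    Finset.sum_add_sum_compl _ _
  suffices hmain : U.card ≤ ∑ i ∈ Jᶜ, (R i).lfS.card by omega
  set B := J.image σ with hB
  have hrep : ∀ v : Fin (2 * n + 1), ∃ j, v ∈ B → j ∈ J ∧ σ j = v := by
    intro v
    by_cases hv : v ∈ B
    · rw [hB, mem_image] at hv
      obtain ⟨j, hj, hjv⟩ := hv
      exact ⟨j, fun _ => ⟨hj, hjv⟩⟩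
    · by_cases hne : Nonempty ι
      · exact ⟨hne.some, fun h => absurd h hv⟩
      · exfalso
        rw [not_nonempty_iff] at hne
        have : ∑ i, wt R i = 0 := by simp
        rw [this] at hsum
        have : 0 < n * (2 * n + 1) := by positivity
        omega
  choose rep hrepc using hrep
  -- an edge of `U` at `v ∈ B` ends in the core of the representative
  have hUB : ∀ v w, v ∈ B → s(v, w) ∈ U → ∃ x ∈ (R (rep v)).coreS, φ (rep v) x = w := by
    intro v w hv he
    obtain ⟨hj, hjv⟩ := hrepc v hv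
    rw [hU, mem_sdiff, mem_sdiff, mem_KE] at he
    have h1 : s(v, w) ∉ Acc R σ φ (rep v) := by
      intro hcon
      exact he.2 (mem_biUnion.mpr ⟨_, hj, hcon⟩)
    have h2 : s(v, w) ∉ SE R φ univ := he.1.2
    have h1' : s(σ (rep v), w) ∉ Acc R σ φ (rep v) := by rw [hjv]; exact h1
    have h2' : s(σ (rep v), w) ∉ SE R φ univ := by rw [hjv]; exact h2
    exact not_acc (fun hw => he.1.1.2.2 (by rw [hw, hjv])) h2' h1'
  have hac : Bᶜ.card + B.card = 2 * n + 1 := by
    rw [Finset.card_compl_add_card, Fintype.card_fin]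
  have hKA : 2 * (KE Bᶜ).card = Bᶜ.card * (Bᶜ.card - 1) := by
    rw [card_KE, Nat.choose_two_right, Nat.mul_div_cancel']
    exact (Nat.even_mul_pred_self _).two_dvd
  by_cases hreg : 5 * B.card ≤ 6 * n
  · -- first regime
    have hU2 : (U \ KE Bᶜ).card ≤ ∑ v ∈ B, (R (rep v)).tauS.card := by
      have hsub : U \ KE Bᶜ ⊆ B.biUnion fun v =>
          (R (rep v)).tauS.image fun x => s(v, φ (rep v) x) := by
        intro e
        induction e using Sym2.ind with
        | _ a b =>
        intro he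
        rw [mem_sdiff] at he
        have hab : a ≠ b := by
          have := he.1
          rw [hU, mem_sdiff, mem_sdiff, mem_KE] at this
          exact this.1.1.2.2
        have hone : ∀ v w, v ∈ B → s(v, w) ∈ U →
            s(v, w) ∈ B.biUnion fun v => (R (rep v)).tauS.image fun x => s(v, φ (rep v) x) := by
          intro v w hv hvw
          obtain ⟨x, hx, hxw⟩ := hUB v w hv hvw
          rw [mem_biUnion]
          refine ⟨v, hv, ?_⟩
          rw [mem_image]
          refine ⟨x, ?_, by rw [hxw]⟩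
          rcases RT.mem_coreS.mp hx with hr | hr
          · exfalso
            rw [hU, mem_sdiff, mem_sdiff] at hvw
            apply hvw.1.2
            rw [hS]
            unfold SE
            rw [mem_image]
            refine ⟨⟨rep v, x⟩, mem_sigma.mpr ⟨mem_univ _, hx⟩, ?_⟩
            simp only
            rw [(RT.mem_rhoS.mp hr).2.1, h.root _ (mem_univ _), (hrepc v hv).2, hxw]
          · exact hr
        by_cases ha : a ∈ B
        · exact hone a b ha he.1
        · have hb : b ∈ B := by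
            by_contra hcon
            apply he.2
            rw [mem_KE, mem_compl, mem_compl]
            exact ⟨ha, hcon, hab⟩
          rw [Sym2.eq_swap]
          exact hone b a hb (by rw [Sym2.eq_swap]; exact he.1)
      calc _ ≤ _ := Finset.card_le_card hsub
        _ ≤ _ := Finset.card_biUnion_le
        _ ≤ _ := Finset.sum_le_sum fun v _ => Finset.card_image_le
    have hU1 : (U ∩ KE Bᶜ).card + (S ∩ KE Bᶜ).card ≤ (KE Bᶜ).card := by
      rw [← Finset.card_union_of_disjoint]
      · apply Finset.card_le_card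
        intro e he
        rw [mem_union, mem_inter, mem_inter] at he
        rcases he with he | he
        · exact he.2
        · exact he.2
      · rw [Finset.disjoint_left]
        intro e he1 he2
        rw [mem_inter] at he1 he2
        rw [hU, mem_sdiff, mem_sdiff] at he1
        exact he1.1.1.2 he2.1
    have hUs : (U ∩ KE Bᶜ).card + (U \ KE Bᶜ).card = U.card := Finset.card_inter_add_card_sdiff _ _
    have hSs : (S ∩ KE Bᶜ).card + (S \ KE Bᶜ).card = S.card := Finset.card_inter_add_card_sdiff _ _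
    have hS2 : (S \ KE Bᶜ).card ≤ ∑ v ∈ B, ∑ i, cnt (R i) (φ i) v := h.card_SE_meet B
    have hS3 : ∑ v ∈ B, ∑ i, cnt (R i) (φ i) v ≤
        ∑ v ∈ B, (∑ i ∈ univ.filter (fun i => σ i = v), (R i).rhoS.card + nr R σ φ univ v) :=
      Finset.sum_le_sum fun v _ => h.sum_cnt_le v
    -- leaves of the trees in `J`
    have hJB : ∑ i ∈ J, (R i).lfS.card =
        ∑ v ∈ B, ∑ i ∈ J.filter (fun i => σ i = v), (R i).lfS.card := by
      rw [Finset.sum_fiberwise_of_maps_to]
      intro i hi
      exact mem_image_of_mem _ hi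
    have hper : ∀ v ∈ B, ∑ i ∈ univ.filter (fun i => σ i = v), (R i).rhoS.card +
        (R (rep v)).tauS.card + ∑ i ∈ J.filter (fun i => σ i = v), (R i).lfS.card ≤ M v := by
      intro v hv
      obtain ⟨hj, hjv⟩ := hrepc v hv
      have e1 : ∑ i ∈ J.filter (fun i => σ i = v), (R i).lfS.card ≤
          ∑ i ∈ univ.filter (fun i => σ i = v), (R i).lfS.card :=
        Finset.sum_le_sum_of_subset (Finset.filter_subset_filter _ (Finset.subset_univ _))
      have e2 : (R (rep v)).tauS.card ≤ ∑ i ∈ univ.filter (fun i => σ i = v), (R i).tauS.card :=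
        Finset.single_le_sum (f := fun i => (R i).tauS.card) (fun _ _ => Nat.zero_le _)
          (mem_filter.mpr ⟨mem_univ _, hjv⟩)
      have e3 : M v = ∑ i ∈ univ.filter (fun i => σ i = v), (R i).rhoS.card +
          ∑ i ∈ univ.filter (fun i => σ i = v), (R i).tauS.card +
          ∑ i ∈ univ.filter (fun i => σ i = v), (R i).lfS.card := by
        rw [hM]
        unfold load
        rw [← Finset.sum_add_distrib, ← Finset.sum_add_distrib]
        apply Finset.sum_congr rfl
        intro i _
        unfold wt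
        rw [RT.card_core]
      omega
    have hperS := Finset.sum_le_sum hper
    rw [Finset.sum_add_distrib, Finset.sum_add_distrib, ← hJB] at hperS
    rw [Finset.sum_add_distrib] at hS3
    -- loads outside the overloaded set
    have hnr : 20 * ∑ v ∈ B, nr R σ φ univ v ≤ 3 * n * (B \ ovr n M).card := by
      have e1 : ∑ v ∈ B, nr R σ φ univ v = ∑ v ∈ B \ ovr n M, nr R σ φ univ v := by
        symm
        apply Finset.sum_subset Finset.sdiff_subset
        intro v hv hv2
        have hvD : v ∈ ovr n M := by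
          by_contra hcon
          exact hv2 (mem_sdiff.mpr ⟨hv, hcon⟩)
        unfold nr
        apply Finset.sum_eq_zero
        intro i _
        by_cases hiv : σ i = v
        · rw [if_pos hiv]
        · rw [if_neg hiv]
          apply cnt_zero (h.root i (mem_univ i)) (fun hh => hiv hh.symm)
          intro x hx hcon
          exact h.notD i (mem_univ i) x hx (by rw [hcon]; exact hvD)
      rw [e1, Finset.mul_sum]
      calc ∑ v ∈ B \ ovr n M, 20 * nr R σ φ univ v ≤ ∑ _v ∈ B \ ovr n M, 3 * n :=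
            Finset.sum_le_sum fun v _ => h.small v
        _ = 3 * n * (B \ ovr n M).card := by rw [Finset.sum_const, smul_eq_mul, mul_comm]
    have hreg1 := regime_one hMsum hload B hreg
    omega
  · -- second regime
    have hA : 5 * Bᶜ.card ≤ 4 * n + 5 := by omega
    have hreg2 := regime_two hMsum hload Bᶜ hA
    have hU2 : (U \ KE Bᶜ).card ≤ ∑ w ∈ Bᶜ, nr R σ φ univ w := by
      have hsub : U \ KE Bᶜ ⊆ Bᶜ.biUnion fun w =>
          (univ.filter fun j => ∃ x ∈ (R j).coreS, φ j x = w).image fun j => s(σ j, w) := by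
        intro e
        induction e using Sym2.ind with
        | _ a b =>
        intro he
        rw [mem_sdiff] at he
        have hab : a ≠ b := by
          have := he.1
          rw [hU, mem_sdiff, mem_sdiff, mem_KE] at this
          exact this.1.1.2.2
        have hone : ∀ v w, v ∈ B → s(v, w) ∈ U → s(v, w) ∈ Bᶜ.biUnion fun w =>
            (univ.filter fun j => ∃ x ∈ (R j).coreS, φ j x = w).image fun j => s(σ j, w) := by
          intro v w hv hvw
          obtain ⟨x, hx, hxw⟩ := hUB v w hv hvw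
          have hwB : w ∉ B := by
            intro hw
            obtain ⟨y, hy, hyv⟩ := hUB w v hw (by rw [Sym2.eq_swap]; exact hvw)
            exact h.nc (rep v) (mem_univ _) (rep w) (mem_univ _) x hx y hy
              (by rw [hxw, (hrepc w hw).2]) (by rw [hyv, (hrepc v hv).2])
          rw [mem_biUnion]
          refine ⟨w, mem_compl.mpr hwB, ?_⟩
          rw [mem_image]
          exact ⟨rep v, mem_filter.mpr ⟨mem_univ _, x, hx, hxw⟩, by rw [(hrepc v hv).2]⟩
        by_cases ha : a ∈ B
        · exact hone a b ha he.1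
        · have hb : b ∈ B := by
            by_contra hcon
            apply he.2
            rw [mem_KE, mem_compl, mem_compl]
            exact ⟨ha, hcon, hab⟩
          rw [Sym2.eq_swap]
          exact hone b a hb (by rw [Sym2.eq_swap]; exact he.1)
      calc _ ≤ _ := Finset.card_le_card hsub
        _ ≤ _ := Finset.card_biUnion_le
        _ ≤ _ := by
          apply Finset.sum_le_sum
          intro w _
          refine Finset.card_image_le.trans ?_
          exact h.card_users w _ (Finset.subset_univ _) (fun j hj => (mem_filter.mp hj).2)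
    have hU1 : (U ∩ KE Bᶜ).card ≤ (KE Bᶜ).card := Finset.card_le_card Finset.inter_subset_right
    have hUs : (U ∩ KE Bᶜ).card + (U \ KE Bᶜ).card = U.card := Finset.card_inter_add_card_sdiff _ _
    have hnr : 20 * ∑ w ∈ Bᶜ, nr R σ φ univ w ≤ 3 * n * Bᶜ.card := by
      rw [Finset.mul_sum]
      calc ∑ v ∈ Bᶜ, 20 * nr R σ φ univ v ≤ ∑ _v ∈ Bᶜ, 3 * n :=
            Finset.sum_le_sum fun v _ => h.small v
        _ = 3 * n * Bᶜ.card := by rw [Finset.sum_const, smul_eq_mul, mul_comm]
    have hlf : 24 * ∑ v ∈ Bᶜ, M v ≤ 25 * ∑ i ∈ Jᶜ, (R i).lfS.card := by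
      have e1 : ∑ v ∈ Bᶜ, M v = ∑ i ∈ univ.filter (fun i => σ i ∈ Bᶜ), wt R i := by
        rw [hM]
        unfold load
        rw [← Finset.sum_biUnion]
        · apply Finset.sum_congr _ fun _ _ => rfl
          ext i
          simp
        · intro a _ b _ hab
          rw [Function.onFun, Finset.disjoint_left]
          intro i hi1 hi2
          rw [mem_filter] at hi1 hi2
          exact hab (hi1.2.symm.trans hi2.2)
      have e2 : univ.filter (fun i => σ i ∈ Bᶜ) ⊆ Jᶜ := by
        intro i hi
        rw [mem_filter, mem_compl] at hi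
        rw [mem_compl]
        intro hij
        exact hi.2 (mem_image_of_mem _ hij)
      rw [e1]
      calc 24 * ∑ i ∈ univ.filter (fun i => σ i ∈ Bᶜ), wt R i
          ≤ 24 * ∑ i ∈ Jᶜ, wt R i := Nat.mul_le_mul_left _ (Finset.sum_le_sum_of_subset e2)
        _ ≤ 25 * ∑ i ∈ Jᶜ, (R i).lfS.card := by
          rw [Finset.mul_sum, Finset.mul_sum]
          apply Finset.sum_le_sum
          intro i _
          have f1 := hnear i
          have f2 := RT.rho_le_tau (R := R i)
          have f3 := RT.card_core (R := R i)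
          unfold wt at f1 ⊢
          omega
    have hfin : 100 * U.card ≤ 100 * ∑ i ∈ Jᶜ, (R i).lfS.card := by
      have e1 : 20 * ∑ w ∈ Bᶜ, nr R σ φ univ w ≤ 3 * (n * Bᶜ.card) := by
        calc _ ≤ _ := hnr
          _ = _ := by ring
      have e2 : 50 * (Bᶜ.card * (Bᶜ.card - 1)) + 15 * (n * Bᶜ.card) ≤ 96 * ∑ v ∈ Bᶜ, M v := by
        calc _ = 50 * (Bᶜ.card * (Bᶜ.card - 1)) + 15 * n * Bᶜ.card := by ring
          _ ≤ _ := hreg2
      omega
    omega

end

end Pool.Agent.Lib.MP_80c395_co
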