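import Mathlib

/-!
# MP_80c395_co: loads

Assignment of weights to `2n+1` places which minimises the sum of the squares of the loads, and the
inequalities for the loads which are used in Hall's condition.
-/

set_option autoImplicit false

open Finset

namespace Pool.Agent.Lib.MP_80c395_co

/-- load of the place `v` -/
def load {ι V : Type} [Fintype ι] [DecidableEq V] (wt : ι → ℕ) (σ : ι → V) (v : V) : ℕ :=
  ∑ i ∈ univ.filter (fun i => σ i = v), wt i

theorem sum_load {ι V : Type} [Fintype ι] [Fintype V] [DecidableEq V] (wt : ι → ℕ) (σ : ι → V) :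
    ∑ v, load wt σ v = ∑ i, wt i := by
  unfold load
  exact Finset.sum_fiberwise_of_maps_to (fun i _ => mem_univ (σ i)) wt

/-- Moving one item does not lower the sum of the squares. -/
theorem exists_move_opt {ι V : Type} [Fintype ι] [DecidableEq ι] [Fintype V] [DecidableEq V]
    [Nonempty V] (wt : ι → ℕ) :
    ∃ σ : ι → V, ∀ i v, 0 < wt i → σ i ≠ v → load wt σ (σ i) ≤ load wt σ v + wt i := by
  classical
  obtain ⟨σ, -, hσ⟩ := Finset.exists_min_image (univ : Finset (ι → V))
    (fun σ => ∑ v, (load wt σ v) ^ 2) univ_nonempty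
  refine ⟨σ, fun i v hi hv => ?_⟩
  have h := hσ (Function.update σ i v) (mem_univ _)
  set τ := Function.update σ i v with hτ
  set u := σ i with hu
  -- loads of τ
  have hother : ∀ x, x ≠ u → x ≠ v → load wt τ x = load wt σ x := by
    intro x hxu hxv
    unfold load
    congr 1
    ext j
    simp only [mem_filter, mem_univ, true_and, hτ, Function.update_apply]
    by_cases hj : j = i
    · subst hj
      simp only [if_true]
      constructor
      · intro h1; exact absurd h1.symm hxv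
      · intro h1; exact absurd h1.symm hxu
    · rw [if_neg hj]
  have hU : load wt σ u = load wt τ u + wt i := by
    unfold load
    have : univ.filter (fun j => σ j = u) = insert i (univ.filter (fun j => τ j = u)) := by
      ext j
      simp only [mem_filter, mem_univ, true_and, mem_insert, hτ, Function.update_apply]
      by_cases hj : j = i
      · subst hj; simp [hu]
      · rw [if_neg hj]; simp [hj]
    rw [this, sum_insert, add_comm]
    simp only [mem_filter, mem_univ, true_and, hτ, Function.update_self]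
    exact fun h1 => hv h1.symm
  have hV : load wt τ v = load wt σ v + wt i := by
    unfold load
    have : univ.filter (fun j => τ j = v) = insert i (univ.filter (fun j => σ j = v)) := by
      ext j
      simp only [mem_filter, mem_univ, true_and, mem_insert, hτ, Function.update_apply]
      by_cases hj : j = i
      · subst hj; simp
      · rw [if_neg hj]; simp [hj]
    rw [this, sum_insert, add_comm]
    simp only [mem_filter, mem_univ, true_and]
    exact hv
  have hs : ∀ ψ : ι → V, ∑ x, (load wt ψ x) ^ 2 =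
      (load wt ψ u) ^ 2 + (load wt ψ v) ^ 2 +
        ∑ x ∈ (univ.erase u).erase v, (load wt ψ x) ^ 2 := by
    intro ψ
    rw [← Finset.add_sum_erase univ _ (mem_univ u),
      ← Finset.add_sum_erase (univ.erase u) _ (mem_erase.mpr ⟨fun h1 => hv h1.symm, mem_univ v⟩)]
    ring
  have hrest : ∑ x ∈ (univ.erase u).erase v, (load wt τ x) ^ 2 =
      ∑ x ∈ (univ.erase u).erase v, (load wt σ x) ^ 2 := by
    apply sum_congr rfl
    intro x hx
    rw [mem_erase, mem_erase] at hx
    rw [hother x hx.2.1 hx.1]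
  rw [hs σ, hs τ, hrest, hV, hU] at h
  rw [hU]
  have h2 : (load wt τ u + wt i) ^ 2 + (load wt σ v) ^ 2 ≤
      (load wt τ u) ^ 2 + (load wt σ v + wt i) ^ 2 := by omega
  by_contra hcon
  push Not at hcon
  nlinarith

theorem exists_assign (n : ℕ) {ι : Type} [Fintype ι] [DecidableEq ι] (wt : ι → ℕ)
    (hw : ∀ i, wt i ≤ n) (hsum : ∑ i, wt i = n * (2 * n + 1)) :
    ∃ σ : ι → Fin (2 * n + 1), ∀ u v, load wt σ u ≤ 2 * load wt σ v := by
  classical
  obtain ⟨σ, hσ⟩ := exists_move_opt (V := Fin (2 * n + 1)) wt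
  refine ⟨σ, ?_⟩
  have hbig : ∀ u v, n < load wt σ u → load wt σ u ≤ 2 * load wt σ v := by
    intro u v hu
    by_cases huv : u = v
    · subst huv; omega
    -- a light item at `u`
    have hex : ∃ i, σ i = u ∧ 0 < wt i ∧ 2 * wt i ≤ load wt σ u := by
      have h0 : ∃ i ∈ univ.filter (fun i => σ i = u), wt i ≠ 0 := by
        by_contra hcon
        push Not at hcon
        have : load wt σ u = 0 := Finset.sum_eq_zero hcon
        omega
      obtain ⟨i, hi, hi0⟩ := h0
      rw [mem_filter] at hi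
      by_cases h2 : 2 * wt i ≤ load wt σ u
      · exact ⟨i, hi.2, Nat.pos_of_ne_zero hi0, h2⟩
      have hsplit : load wt σ u = wt i + ∑ j ∈ (univ.filter (fun i => σ i = u)).erase i, wt j := by
        unfold load
        rw [Finset.add_sum_erase _ _ (by rw [mem_filter]; exact hi)]
      have h1 : ∃ j ∈ (univ.filter (fun i => σ i = u)).erase i, wt j ≠ 0 := by
        by_contra hcon
        push Not at hcon
        have : ∑ j ∈ (univ.filter (fun i => σ i = u)).erase i, wt j = 0 :=
          Finset.sum_eq_zero hcon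
        have := hw i
        omega
      obtain ⟨j, hj, hj0⟩ := h1
      have hle : wt j ≤ ∑ j ∈ (univ.filter (fun i => σ i = u)).erase i, wt j :=
        Finset.single_le_sum (f := wt) (fun _ _ => Nat.zero_le _) hj
      rw [mem_erase, mem_filter] at hj
      exact ⟨j, hj.2.2, Nat.pos_of_ne_zero hj0, by omega⟩
    obtain ⟨i, hi, hi0, hi2⟩ := hex
    have := hσ i v hi0 (by rw [hi]; exact huv)
    rw [hi] at this
    omega
  intro u v
  by_cases hall : ∀ x, load wt σ x ≤ n
  · -- all loads are equal to `n`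
    have hv : load wt σ v = n := by
      by_contra hne
      have hlt : load wt σ v < n := lt_of_le_of_ne (hall v) hne
      have : ∑ x, load wt σ x < ∑ _x : Fin (2 * n + 1), n :=
        Finset.sum_lt_sum (fun x _ => hall x) ⟨v, mem_univ v, hlt⟩
      rw [sum_load, hsum, Finset.sum_const, Finset.card_univ, Fintype.card_fin, smul_eq_mul] at this
      rw [mul_comm] at this
      exact lt_irrefl _ this
    have := hall u
    omega
  · push Not at hall
    obtain ⟨x, hx⟩ := hall
    by_cases hu : n < load wt σ u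
    · exact hbig u v hu
    · have := hbig x v hx
      omega

/-! ### Inequalities -/

theorem num_one (n w b a s d SB SA S1 S2 : ℤ) (hn0 : 0 ≤ n) (_ : 0 ≤ w) (hb0 : 0 ≤ b)
    (ha1 : 1 ≤ a) (hs0 : 0 ≤ s) (hd0 : 0 ≤ d) (hc : a + b = 2 * n + 1)
    (ht : SB + SA = n * (2 * n + 1)) (hA : w * a ≤ SA) (hds : s + d = b)
    (hBD : SB = S1 + S2) (h1 : S2 ≤ 2 * w * d) (h3 : 5 * S1 ≤ 8 * n * s)
    (hBtot : SB ≤ 2 * w * b) (hB : 5 * b ≤ 6 * n) :
    20 * SB + 3 * n * s + 10 * (a * (a - 1)) ≤ 20 * (n * (2 * n + 1)) := by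
  have hsb : s ≤ b := by linarith
  have hid : 20 * (n * (2 * n + 1)) - 10 * (a * (a - 1)) =
      10 * b * (2 * (2 * n + 1) - b - 1) := by
    have : a = 2 * n + 1 - b := by linarith
    rw [this]; ring
  by_cases hhalf : 2 * b ≤ n
  · by_cases hcase : 4 * w ≤ 2 * (2 * n + 1) - b - 1
    · have e1 : 20 * SB ≤ 40 * w * d + 32 * n * s := by linarith
      have e2 : 40 * w * d ≤ 10 * d * (2 * (2 * n + 1) - b - 1) := by
        have := mul_le_mul_of_nonneg_left hcase hd0
        linarith
      have e3 : 35 * n * s ≤ 10 * s * (2 * (2 * n + 1) - b - 1) := by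
        have f : 35 * n ≤ 10 * (2 * (2 * n + 1) - b - 1) := by linarith
        have := mul_le_mul_of_nonneg_left f hs0
        linarith
      have e4 : 10 * b * (2 * (2 * n + 1) - b - 1) =
          10 * d * (2 * (2 * n + 1) - b - 1) + 10 * s * (2 * (2 * n + 1) - b - 1) := by
        have : b = s + d := by linarith
        rw [this]; ring
      linarith
    · push Not at hcase
      have e1 : 2 * a + b ≤ 4 * w := by linarith
      have e2 : 5 * a * (2 * a + b) ≤ 5 * a * (4 * w) :=
        mul_le_mul_of_nonneg_left e1 (by linarith)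
      have e3 : 3 * n * s ≤ 3 * n * b := mul_le_mul_of_nonneg_left hsb (by linarith)
      have e4 : 3 * n * b ≤ 5 * a * b := by
        apply mul_le_mul_of_nonneg_right _ hb0
        linarith
      have e5 : 20 * SB = 20 * (n * (2 * n + 1)) - 20 * SA := by linarith
      nlinarith
  · push Not at hhalf
    have e1 : SB * (2 * n + 1 + b) ≤ 2 * b * (n * (2 * n + 1)) := by
      have f1 : SB * a ≤ 2 * w * b * a :=
        mul_le_mul_of_nonneg_right hBtot (by linarith)
      have f2 : SB ≤ n * (2 * n + 1) - w * a := by linarith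
      have f3 : 2 * b * SB ≤ 2 * b * (n * (2 * n + 1) - w * a) :=
        mul_le_mul_of_nonneg_left f2 (by linarith)
      have f4 : (2 * n + 1 + b : ℤ) = a + 2 * b := by linarith
      rw [f4]
      nlinarith
    have hNb : (0 : ℤ) < 2 * n + 1 + b := by linarith
    have e2 : 0 ≤ 10 * (b + 1) * (2 * n + 1 - b) - 3 * n * (2 * n + 1 + b) := by
      have : 10 * (b + 1) * (2 * n + 1 - b) - 3 * n * (2 * n + 1 + b)
          = (2 * b - n) * (6 * n - 5 * b) + 17 * n + 10 := by ring
      rw [this]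
      have g1 : 0 ≤ 2 * b - n := by linarith
      have g2 : 0 ≤ 6 * n - 5 * b := by linarith
      have := mul_nonneg g1 g2
      linarith
    have e3 : 3 * n * s ≤ 3 * n * b := mul_le_mul_of_nonneg_left hsb (by linarith)
    suffices hmain : 20 * SB + 3 * n * b ≤ 10 * b * (2 * (2 * n + 1) - b - 1) by linarith
    by_contra hcon
    push Not at hcon
    have g1 : 10 * b * (2 * (2 * n + 1) - b - 1) * (2 * n + 1 + b) <
        (20 * SB + 3 * n * b) * (2 * n + 1 + b) := mul_lt_mul_of_pos_right hcon hNb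
    have g2 : b * (10 * (b + 1) * (2 * n + 1 - b) - 3 * n * (2 * n + 1 + b)) ≥ 0 :=
      mul_nonneg hb0 e2
    nlinarith

theorem num_two (n w b a SA SB : ℤ) (hn0 : 0 ≤ n) (_ : 0 ≤ w) (hb0 : 0 ≤ b) (ha1 : 1 ≤ a)
    (hc : b + a = 2 * n + 1) (ht : SA + SB = n * (2 * n + 1)) (h1 : w * a ≤ SA)
    (h3 : SB ≤ 2 * w * b) (hA : 5 * a ≤ 4 * n + 5) :
    50 * (a * (a - 1)) + 15 * n * a ≤ 96 * SA := by
  have e1 : a * (n * (2 * n + 1)) ≤ SA * (4 * n + 2 - a) := by
    have f1 : 2 * b * (w * a) ≤ 2 * b * SA := mul_le_mul_of_nonneg_left h1 (by linarith)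
    have f2 : n * (2 * n + 1) - 2 * w * b ≤ SA := by linarith
    have f3 : a * (n * (2 * n + 1) - 2 * w * b) ≤ a * SA :=
      mul_le_mul_of_nonneg_left f2 (by linarith)
    have f4 : 4 * n + 2 - a = 2 * b + a := by linarith
    rw [f4]
    nlinarith
  have e2 : (50 * (a - 1) + 15 * n) * (4 * n + 2 - a) ≤ 96 * (n * (2 * n + 1)) := by
    have f : 0 ≤ 4 * n - 5 * (a - 1) := by linarith
    nlinarith [mul_nonneg f hn0, mul_nonneg f (show (0:ℤ) ≤ a - 1 by linarith)]
  have hpos : (0 : ℤ) < 4 * n + 2 - a := by linarith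
  by_contra hcon
  push Not at hcon
  have g1 : 96 * SA * (4 * n + 2 - a) <
      (50 * (a * (a - 1)) + 15 * n * a) * (4 * n + 2 - a) :=
    mul_lt_mul_of_pos_right hcon hpos
  have g2 : a * ((50 * (a - 1) + 15 * n) * (4 * n + 2 - a)) ≤ a * (96 * (n * (2 * n + 1))) :=
    mul_le_mul_of_nonneg_left e2 (by linarith)
  nlinarith

section Ineq

variable {n : ℕ} {M : Fin (2 * n + 1) → ℕ}

theorem exists_le_avg (hM : ∑ v, M v = n * (2 * n + 1)) : ∃ v, M v ≤ n := by
  by_contra hcon
  push Not at hcon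
  have : ∑ _x : Fin (2 * n + 1), n < ∑ x, M x :=
    Finset.sum_lt_sum (fun x _ => (hcon x).le) ⟨0, mem_univ 0, hcon 0⟩
  rw [hM, Finset.sum_const, Finset.card_univ, Fintype.card_fin, smul_eq_mul, mul_comm] at this
  exact lt_irrefl _ this

theorem load_le (hM : ∑ v, M v = n * (2 * n + 1)) (h2 : ∀ u v, M u ≤ 2 * M v) (v) :
    M v ≤ 2 * n := by
  obtain ⟨v', hv'⟩ := exists_le_avg hM
  have := h2 v v'
  omega

theorem exists_min (h2 : ∀ u v, M u ≤ 2 * M v) : ∃ w, (∀ v, w ≤ M v) ∧ ∀ v, M v ≤ 2 * w := by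
  obtain ⟨v0, -, hv0⟩ := Finset.exists_min_image (univ : Finset (Fin (2 * n + 1))) M univ_nonempty
  exact ⟨M v0, fun v => hv0 v (mem_univ v), fun v => h2 v v0⟩

/-- overloaded vertices -/
def ovr (n : ℕ) (M : Fin (2 * n + 1) → ℕ) : Finset (Fin (2 * n + 1)) :=
  univ.filter fun v => 8 * n < 5 * M v

theorem sum_compl_add (B : Finset (Fin (2 * n + 1))) (hM : ∑ v, M v = n * (2 * n + 1)) :
    ∑ v ∈ B, M v + ∑ v ∈ Bᶜ, M v = n * (2 * n + 1) := by
  rw [Finset.sum_add_sum_compl, hM]

theorem card_ovr (hn : 0 < n) (hM : ∑ v, M v = n * (2 * n + 1)) (h2 : ∀ u v, M u ≤ 2 * M v) :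
    4 * (ovr n M).card ≤ 2 * n + 1 := by
  obtain ⟨w, hw1, hw2⟩ := exists_min h2
  by_cases h0 : (ovr n M).card = 0
  · omega
  obtain ⟨v, hv⟩ := Finset.card_pos.mp (Nat.pos_of_ne_zero h0)
  have hv' : 8 * n < 5 * M v := by
    unfold ovr at hv
    rw [mem_filter] at hv
    exact hv.2
  have h3 : 4 * n < 5 * w := by
    have := hw2 v
    omega
  have hS1 : (ovr n M).card * (8 * n) ≤ 5 * ∑ v ∈ ovr n M, M v := by
    rw [Finset.mul_sum, ← smul_eq_mul, ← Finset.sum_const]
    apply Finset.sum_le_sum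
    intro x hx
    unfold ovr at hx
    rw [mem_filter] at hx
    exact hx.2.le
  have hS2 : ((ovr n M)ᶜ).card * (4 * n) ≤ 5 * ∑ v ∈ (ovr n M)ᶜ, M v := by
    rw [Finset.mul_sum, ← smul_eq_mul, ← Finset.sum_const]
    apply Finset.sum_le_sum
    intro x _
    have := hw1 x
    omega
  have hc : ((ovr n M)ᶜ).card + (ovr n M).card = 2 * n + 1 := by
    rw [Finset.card_compl_add_card, Fintype.card_fin]
  have ht := sum_compl_add (ovr n M) hM
  set d := (ovr n M).card
  set e := ((ovr n M)ᶜ).card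
  -- 8 n d + 4 n e ≤ 5 n (2n+1)
  have h5 : d * (8 * n) + e * (4 * n) ≤ 5 * (n * (2 * n + 1)) := by
    rw [← ht]; linarith
  have h6 : n * (8 * d + 4 * e) ≤ n * (5 * (2 * n + 1)) := by linarith
  have h7 := Nat.le_of_mul_le_mul_left h6 hn
  omega

theorem sum_B_le (B : Finset (Fin (2 * n + 1))) (w : ℕ) (hw : ∀ v, M v ≤ 2 * w) :
    ∑ v ∈ B, M v ≤ 2 * w * B.card := by
  calc ∑ v ∈ B, M v ≤ ∑ _v ∈ B, 2 * w := Finset.sum_le_sum fun v _ => hw v
    _ = 2 * w * B.card := by rw [Finset.sum_const, smul_eq_mul, mul_comm]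

theorem le_sum_B (B : Finset (Fin (2 * n + 1))) (w : ℕ) (hw : ∀ v, w ≤ M v) :
    w * B.card ≤ ∑ v ∈ B, M v := by
  calc w * B.card = ∑ _v ∈ B, w := by rw [Finset.sum_const, smul_eq_mul, mul_comm]
    _ ≤ ∑ v ∈ B, M v := Finset.sum_le_sum fun v _ => hw v

/-- first regime -/
theorem regime_one (hM : ∑ v, M v = n * (2 * n + 1)) (h2 : ∀ u v, M u ≤ 2 * M v)
    (B : Finset (Fin (2 * n + 1))) (hB : 5 * B.card ≤ 6 * n) :
    20 * ∑ v ∈ B, M v + 3 * n * (B \ ovr n M).card + 10 * (Bᶜ.card * (Bᶜ.card - 1))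
      ≤ 20 * (n * (2 * n + 1)) := by
  obtain ⟨w, hw1, hw2⟩ := exists_min h2
  have hc : Bᶜ.card + B.card = 2 * n + 1 := by
    rw [Finset.card_compl_add_card, Fintype.card_fin]
  have ht := sum_compl_add B hM
  have hA := le_sum_B Bᶜ w hw1
  have hds : (B \ ovr n M).card + (B ∩ ovr n M).card = B.card :=
    Finset.card_sdiff_add_card_inter B (ovr n M)
  have hBD : ∑ v ∈ B, M v = ∑ v ∈ B \ ovr n M, M v + ∑ v ∈ B ∩ ovr n M, M v := by
    have := Finset.sum_inter_add_sum_sdiff B (ovr n M) M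
    omega
  have h1 : ∑ v ∈ B ∩ ovr n M, M v ≤ 2 * w * (B ∩ ovr n M).card := sum_B_le _ w hw2
  have h3 : 5 * ∑ v ∈ B \ ovr n M, M v ≤ 8 * n * (B \ ovr n M).card := by
    rw [Finset.mul_sum]
    calc ∑ v ∈ B \ ovr n M, 5 * M v ≤ ∑ _v ∈ B \ ovr n M, 8 * n := by
          apply Finset.sum_le_sum
          intro v hv
          rw [mem_sdiff] at hv
          by_contra hcon
          apply hv.2
          unfold ovr
          rw [mem_filter]
          exact ⟨mem_univ _, by omega⟩
      _ = 8 * n * (B \ ovr n M).card := by rw [Finset.sum_const, smul_eq_mul, mul_comm]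
  have hBtot := sum_B_le B w hw2
  have ha1 : 1 ≤ Bᶜ.card := by omega
  have key := num_one n w B.card Bᶜ.card (B \ ovr n M).card (B ∩ ovr n M).card
    (∑ v ∈ B, M v : ℕ) (∑ v ∈ Bᶜ, M v : ℕ) (∑ v ∈ B \ ovr n M, M v : ℕ)
    (∑ v ∈ B ∩ ovr n M, M v : ℕ) (by positivity) (by positivity) (by positivity)
    (by exact_mod_cast ha1) (by positivity) (by positivity) (by exact_mod_cast hc)
    (by exact_mod_cast ht) (by exact_mod_cast hA) (by exact_mod_cast hds)
    (by exact_mod_cast hBD) (by exact_mod_cast h1) (by exact_mod_cast h3)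
    (by exact_mod_cast hBtot) (by exact_mod_cast hB)
  have hcast : ((Bᶜ.card - 1 : ℕ) : ℤ) = (Bᶜ.card : ℤ) - 1 := by
    rw [Nat.cast_sub ha1]; simp
  rw [← hcast] at key
  exact_mod_cast key

/-- second regime -/
theorem regime_two (hM : ∑ v, M v = n * (2 * n + 1)) (h2 : ∀ u v, M u ≤ 2 * M v)
    (A : Finset (Fin (2 * n + 1))) (hA : 5 * A.card ≤ 4 * n + 5) :
    50 * (A.card * (A.card - 1)) + 15 * n * A.card ≤ 96 * ∑ v ∈ A, M v := by
  obtain ⟨w, hw1, hw2⟩ := exists_min h2
  have hc : Aᶜ.card + A.card = 2 * n + 1 := by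
    rw [Finset.card_compl_add_card, Fintype.card_fin]
  have ht := sum_compl_add A hM
  have h1 := le_sum_B A w hw1
  have h3 := sum_B_le Aᶜ w hw2
  rcases Nat.eq_zero_or_pos A.card with h0 | h0
  · rw [h0]; simp
  have key := num_two n w Aᶜ.card A.card (∑ v ∈ A, M v : ℕ) (∑ v ∈ Aᶜ, M v : ℕ)
    (by positivity) (by positivity) (by positivity) (by exact_mod_cast h0)
    (by exact_mod_cast hc) (by exact_mod_cast ht) (by exact_mod_cast h1) (by exact_mod_cast h3)
    (by exact_mod_cast hA)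
  have hcast : ((A.card - 1 : ℕ) : ℤ) = (A.card : ℤ) - 1 := by
    rw [Nat.cast_sub h0]; simp
  rw [← hcast] at key
  exact_mod_cast key

end Ineq

end Pool.Agent.Lib.MP_80c395_co
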