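import Pool.Agent.Lib.MP_80c395_co.HallPart

/-!
# MP_80c395_co: packing of families of near-stars
-/

set_option autoImplicit false

open Finset

namespace Pool.Agent.Lib.MP_80c395_co

section

variable {n : ℕ} {ι : Type} [DecidableEq ι] [Fintype ι] {X : ι → Type} [∀ i, Fintype (X i)]
  [∀ i, DecidableEq (X i)]

/-- packing for rooted trees, exact number of edges -/
theorem pack_exact (hn : 0 < n) (R : ∀ i, RT (X i)) (hwt : ∀ i, wt R i ≤ n)
    (hnear : ∀ i, 50 * (R i).tauS.card ≤ wt R i) (hsum : ∑ i, wt R i = n * (2 * n + 1)) :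
    ∃ f : ∀ i, X i → Fin (2 * n + 1), (∀ i, Function.Injective (f i)) ∧
      ∀ i j, i ≠ j → ∀ x, x ≠ (R i).c → ∀ y, y ≠ (R j).c →
        s(f i ((R i).p x), f i x) ≠ s(f j ((R j).p y), f j y) := by
  classical
  obtain ⟨σ, hload⟩ := exists_assign n (wt R) hwt hsum
  obtain ⟨φ, h⟩ := exists_St hn hwt hnear hsum hload
  have hall := h.hall hn hnear hsum hload
  -- Hall's theorem
  obtain ⟨g, hginj, hg⟩ := (Finset.all_card_le_biUnion_card_iff_exists_injective
    (fun a : Σ i, {x // x ∈ (R i).lfS} => Acc R σ φ a.1)).mp (by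
      intro s
      have h1 : s.card ≤ ∑ i ∈ s.image Sigma.fst, (R i).lfS.card := by
        calc s.card ≤ ((s.image Sigma.fst).sigma fun i =>
              (univ : Finset {x // x ∈ (R i).lfS})).card := by
              apply Finset.card_le_card
              intro a ha
              rw [mem_sigma]
              exact ⟨mem_image_of_mem _ ha, mem_univ _⟩
          _ = _ := by
              rw [Finset.card_sigma]
              apply Finset.sum_congr rfl
              intro i _
              rw [Finset.card_univ, Fintype.card_coe]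
      have h2 := hall (s.image Sigma.fst)
      have h3 : (s.image Sigma.fst).biUnion (Acc R σ φ) =
          s.biUnion fun a => Acc R σ φ a.1 := by
        rw [Finset.image_biUnion]
      rw [h3] at h2
      exact h1.trans h2)
  have hother : ∀ a : Σ i, {x // x ∈ (R i).lfS}, ∃ w, w ≠ σ a.1 ∧
      (∀ x ∈ (R a.1).coreS, φ a.1 x ≠ w) ∧ s(σ a.1, w) ∉ SE R φ univ ∧ g a = s(σ a.1, w) := by
    intro a
    have h1 := hg a
    unfold Acc at h1
    rw [mem_image] at h1
    obtain ⟨w, hw, hgw⟩ := h1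
    rw [mem_filter] at hw
    exact ⟨w, hw.2.1, hw.2.2.1, hw.2.2.2, hgw.symm⟩
  choose w hw1 hw2 hw3 hw4 using hother
  let f : ∀ i, X i → Fin (2 * n + 1) := fun i x =>
    if hx : x ∈ (R i).lfS then w ⟨i, ⟨x, hx⟩⟩ else φ i x
  have hfl : ∀ i (x : X i) (hx : x ∈ (R i).lfS), f i x = w ⟨i, ⟨x, hx⟩⟩ := by
    intro i x hx
    simp only [f]
    rw [dif_pos hx]
  have hfc : ∀ i, f i (R i).c = σ i := by
    intro i
    simp only [f]
    rw [dif_neg (fun hx => RT.ne_of_lf hx rfl)]
    exact h.root i (mem_univ i)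
  have hfcore : ∀ i, ∀ x ∈ (R i).coreS, f i x = φ i x := by
    intro i x hx
    simp only [f]
    rw [dif_neg (fun hx' => RT.not_core_of_lf hx' hx)]
  refine ⟨f, ?_, ?_⟩
  · -- injectivity
    intro i
    have key1 : ∀ (x : X i) (hx : x ∈ (R i).lfS), f i x ≠ σ i := fun x hx => by
      rw [hfl i x hx]; exact hw1 _
    have key2 : ∀ x ∈ (R i).coreS, f i x ≠ σ i := fun x hx => by
      rw [hfcore i x hx]; exact h.avoid i (mem_univ i) x hx
    have key3 : ∀ x ∈ (R i).coreS, ∀ y ∈ (R i).lfS, f i x ≠ f i y := fun x hx y hy => by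
      rw [hfcore i x hx, hfl i y hy]
      exact hw2 ⟨i, ⟨y, hy⟩⟩ x hx
    intro x y hxy
    by_cases hxc : x = (R i).c
    · by_cases hyc : y = (R i).c
      · rw [hxc, hyc]
      · exfalso
        rw [hxc, hfc] at hxy
        rcases RT.core_or_lf hyc with h1 | h1
        · exact key2 y h1 hxy.symm
        · exact key1 y h1 hxy.symm
    · by_cases hyc : y = (R i).c
      · exfalso
        rw [hyc, hfc] at hxy
        rcases RT.core_or_lf hxc with h1 | h1
        · exact key2 x h1 hxy
        · exact key1 x h1 hxy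
      · rcases RT.core_or_lf hxc with h1 | h1
        · rcases RT.core_or_lf hyc with h2 | h2
          · rw [hfcore i x h1, hfcore i y h2] at hxy
            exact h.inj i (mem_univ i) (mem_coe.mpr h1) (mem_coe.mpr h2) hxy
          · exact absurd hxy (key3 x h1 y h2)
        · rcases RT.core_or_lf hyc with h2 | h2
          · exact absurd hxy.symm (key3 y h2 x h1)
          · rw [hfl i x h1, hfl i y h2] at hxy
            have e1 : g ⟨i, ⟨x, h1⟩⟩ = g ⟨i, ⟨y, h2⟩⟩ := by rw [hw4, hw4, hxy]
            have e2 := hginj e1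
            rw [Sigma.mk.injEq] at e2
            have e3 := eq_of_heq e2.2
            rw [Subtype.mk.injEq] at e3
            exact e3
  · -- distinct edges
    have hleaf : ∀ i (x : X i) (hx : x ∈ (R i).lfS),
        s(f i ((R i).p x), f i x) = g ⟨i, ⟨x, hx⟩⟩ := by
      intro i x hx
      rw [RT.p_of_lf hx, hfc, hfl i x hx, hw4]
    have hcore : ∀ i, ∀ x ∈ (R i).coreS,
        s(f i ((R i).p x), f i x) = s(φ i ((R i).p x), φ i x) := by
      intro i x hx
      rw [hfcore i x hx]
      rcases RT.p_core hx with h1 | h1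
      · rw [h1, hfc, h.root i (mem_univ i)]
      · rw [hfcore i _ h1]
    have hcoreS : ∀ i, ∀ x ∈ (R i).coreS, s(f i ((R i).p x), f i x) ∈ SE R φ univ := by
      intro i x hx
      rw [hcore i x hx]
      unfold SE
      rw [mem_image]
      exact ⟨⟨i, x⟩, mem_sigma.mpr ⟨mem_univ _, hx⟩, rfl⟩
    have hleafS : ∀ i (x : X i), x ∈ (R i).lfS → s(f i ((R i).p x), f i x) ∉ SE R φ univ := by
      intro i x hx
      rw [hleaf i x hx, hw4]
      exact hw3 _
    intro i j hij x hx y hy hcon
    rcases RT.core_or_lf hx with h1 | h1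
    · rcases RT.core_or_lf hy with h2 | h2
      · rw [hcore i x h1, hcore j y h2] at hcon
        exact h.edge i (mem_univ i) j (mem_univ j) hij x h1 y h2 hcon
      · exact hleafS j y h2 (by rw [← hcon]; exact hcoreS i x h1)
    · rcases RT.core_or_lf hy with h2 | h2
      · exact hleafS i x h1 (by rw [hcon]; exact hcoreS j y h2)
      · rw [hleaf i x h1, hleaf j y h2] at hcon
        have := hginj hcon
        rw [Sigma.mk.injEq] at this
        exact hij this.1

/-- packing for trees, exact number of edges -/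
theorem pack_trees_exact (hn : 0 < n) (T : ∀ i, SimpleGraph (X i)) (hT : ∀ i, (T i).IsTree)
    (hcard : ∀ i, Fintype.card (X i) ≤ n + 1)
    (hnear : ∀ i, ∃ v : X i, 50 * ((T i).edgeSet.ncard - ((T i).neighborSet v).ncard) ≤
      (T i).edgeSet.ncard)
    (hsum : ∑ i, (T i).edgeSet.ncard = n * (2 * n + 1)) :
    ∃ f : ∀ i, X i → Fin (2 * n + 1), (∀ i, Function.Injective (f i)) ∧
      ∀ i j, i ≠ j → ∀ a b c d, (T i).Adj a b → (T j).Adj c d →
        s(f i a, f i b) ≠ s(f j c, f j d) := by
  classical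
  choose v hv using hnear
  have hR := fun i => exists_RT (T i) (hT i) (v i)
  choose R hRc hR1 hR2 hR3 using hR
  have hw : ∀ i, wt R i = (T i).edgeSet.ncard := by
    intro i
    have h1 := RT.card_all (R := R i)
    have h2 := hR3 i
    unfold wt
    omega
  obtain ⟨f, hf1, hf2⟩ := pack_exact hn R
    (fun i => by
      have h1 := hcard i
      have h2 := hR3 i
      rw [hw i]; omega)
    (fun i => by
      rw [RT.card_tau_of_tree (hRc i) (hR1 i) (hR2 i) (hR3 i), hw i]
      exact hv i)
    (by rw [← hsum]; exact Finset.sum_congr rfl fun i _ => hw i)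
  refine ⟨f, hf1, ?_⟩
  have hedge : ∀ i a b, (T i).Adj a b → ∃ x, x ≠ (R i).c ∧
      s(f i a, f i b) = s(f i ((R i).p x), f i x) := by
    intro i a b hab
    rcases hR2 i a b hab with ⟨h1, h2⟩ | ⟨h1, h2⟩
    · exact ⟨a, by rw [hRc]; exact h1, by rw [h2, Sym2.eq_swap]⟩
    · exact ⟨b, by rw [hRc]; exact h1, by rw [h2]⟩
  intro i j hij a b c d hab hcd
  obtain ⟨x, hx, hx2⟩ := hedge i a b hab
  obtain ⟨y, hy, hy2⟩ := hedge j c d hcd
  rw [hx2, hy2]
  exact hf2 i j hij x hx y hy

end

theorem choose_two (n : ℕ) : (2 * n + 1).choose 2 = n * (2 * n + 1) := by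
  rw [Nat.choose_two_right]
  have : (2 * n + 1) * (2 * n + 1 - 1) = n * (2 * n + 1) * 2 := by
    rw [Nat.add_sub_cancel]; ring
  rw [this, Nat.mul_div_cancel _ (by norm_num)]

theorem top_two_isTree : (⊤ : SimpleGraph (Fin 2)).IsTree := by
  have hconn : (⊤ : SimpleGraph (Fin 2)).Connected := SimpleGraph.connected_top
  rw [SimpleGraph.isTree_iff_connected_and_card]
  refine ⟨hconn, ?_⟩
  rw [Nat.card_eq_fintype_card, Nat.card_eq_fintype_card, ← SimpleGraph.edgeFinset_card,
    SimpleGraph.card_edgeFinset_top_eq_card_choose_two]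
  simp

/-- **Packing of near-stars.** -/
theorem pack_near_stars (n k : ℕ) (m : Fin k → ℕ) (T : (i : Fin k) → SimpleGraph (Fin (m i)))
    (hT : ∀ i, (T i).IsTree) (hm : ∀ i, m i ≤ n + 1)
    (hnear : ∀ i, ∃ v : Fin (m i), 50 * ((T i).edgeSet.ncard - ((T i).neighborSet v).ncard) ≤
      (T i).edgeSet.ncard)
    (hsum : (∑ i, (T i).edgeSet.ncard) ≤ (2 * n + 1).choose 2) :
    ∃ f : (i : Fin k) → (Fin (m i) ↪ Fin (2 * n + 1)),
      ∀ i j : Fin k, i ≠ j → ∀ (a b : Fin (m i)) (c d : Fin (m j)),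
        (T i).Adj a b → (T j).Adj c d → s(f i a, f i b) ≠ s(f j c, f j d) := by
  classical
  rcases Nat.eq_zero_or_pos n with hn | hn
  · subst hn
    refine ⟨fun i => Fin.castLEEmb (by have := hm i; omega), ?_⟩
    intro i j _ a b c d hab _
    exfalso
    have h1 := hm i
    have h2 := a.2
    have h3 := b.2
    apply hab.ne
    apply Fin.ext
    omega
  rw [choose_two] at hsum
  obtain ⟨r, hr⟩ := Nat.exists_eq_add_of_le hsum
  let m' : Fin k ⊕ Fin r → ℕ := Sum.elim m fun _ => 2
  let T' : (i : Fin k ⊕ Fin r) → SimpleGraph (Fin (m' i)) := fun i =>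
    match i with
    | Sum.inl i => T i
    | Sum.inr _ => (⊤ : SimpleGraph (Fin 2))
  have hedge2 : (⊤ : SimpleGraph (Fin 2)).edgeSet.ncard = 1 := by
    rw [← SimpleGraph.coe_edgeFinset, Set.ncard_coe_finset,
      SimpleGraph.card_edgeFinset_top_eq_card_choose_two]
    simp
  obtain ⟨f, hf1, hf2⟩ := pack_trees_exact (ι := Fin k ⊕ Fin r) (X := fun i => Fin (m' i)) hn T'
    (by
      rintro (i | i)
      · exact hT i
      · exact top_two_isTree)
    (by
      rintro (i | i)
      · rw [Fintype.card_fin]; exact hm i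
      · rw [Fintype.card_fin]
        show 2 ≤ n + 1
        omega)
    (by
      rintro (i | i)
      · exact hnear i
      · refine ⟨(0 : Fin 2), ?_⟩
        show 50 * ((⊤ : SimpleGraph (Fin 2)).edgeSet.ncard -
          ((⊤ : SimpleGraph (Fin 2)).neighborSet 0).ncard) ≤ (⊤ : SimpleGraph (Fin 2)).edgeSet.ncard
        have h1 : 1 ≤ ((⊤ : SimpleGraph (Fin 2)).neighborSet 0).ncard := by
          rw [Nat.one_le_iff_ne_zero, ← Nat.pos_iff_ne_zero, Set.ncard_pos (Set.toFinite _)]
          exact ⟨1, by simp⟩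
        rw [hedge2]
        omega)
    (by
      rw [Fintype.sum_sum_type]
      show ∑ i, (T i).edgeSet.ncard + ∑ _i : Fin r, (⊤ : SimpleGraph (Fin 2)).edgeSet.ncard = _
      rw [hedge2, hr]
      simp)
  refine ⟨fun i => ⟨f (Sum.inl i), hf1 (Sum.inl i)⟩, ?_⟩
  intro i j hij a b c d hab hcd
  exact hf2 (Sum.inl i) (Sum.inl j) (fun h => hij (Sum.inl_injective h)) a b c d hab hcd

end Pool.Agent.Lib.MP_80c395_co
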